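import Mathlib

set_option autoImplicit false
open Set Matroid

namespace Pool.Agent.Helper982.BC

variable {α : Type*}

/-- number of bases -/
noncomputable def nb (M : Matroid α) : ℕ := {B | M.IsBase B}.ncard
/-- number of circuits -/
noncomputable def nc (M : Matroid α) : ℕ := {C | M.IsCircuit C}.ncard

lemma bases_finite (M : Matroid α) (h : M.E.Finite) : {B | M.IsBase B}.Finite :=
  h.finite_subsets.subset (fun _ hB => IsBase.subset_ground hB)

lemma circuits_finite (M : Matroid α) (h : M.E.Finite) : {C | M.IsCircuit C}.Finite :=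
  h.finite_subsets.subset (fun _ hB => IsCircuit.subset_ground hB)

lemma base_count (M : Matroid α) (hE : M.E.Finite) (hcl : ∀ e ∈ M.E, ¬ M.IsColoop e)
    (I B₀ : Set α) (hB₀ : M.IsBase B₀) (hI : I ⊆ B₀) :
    (B₀ \ I).ncard + 1 ≤ {B | M.IsBase B ∧ I ⊆ B}.ncard := by
  classical
  have hfin : {B | M.IsBase B ∧ I ⊆ B}.Finite := (bases_finite M hE).subset (fun B hB => hB.1)
  have hex : ∀ x ∈ B₀, ∃ B, M.IsBase B ∧ x ∉ B ∧ B₀ \ {x} ⊆ B := by
    intro x hx
    have h1 := hcl x (hB₀.subset_ground hx)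
    rw [isColoop_iff_forall_mem_isBase] at h1
    push Not at h1
    obtain ⟨B₁, hB₁, hxB₁⟩ := h1
    obtain ⟨y, hy, hyB⟩ := hB₀.exchange hB₁ ⟨hx, hxB₁⟩
    refine ⟨_, hyB, ?_, subset_insert _ _⟩
    rintro (rfl | h2)
    · exact hy.2 hx
    · exact h2.2 rfl
  choose! g hg1 hg2 hg3 using hex
  have hinj : InjOn g (B₀ \ I) := by
    intro x hx y hy hxy
    by_contra hne
    have : x ∈ g y := hg3 y hy.1 ⟨hx.1, hne⟩
    rw [← hxy] at this
    exact hg2 x hx.1 this
  have hnot : B₀ ∉ g '' (B₀ \ I) := by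
    rintro ⟨x, hx, hx2⟩
    have := hg2 x hx.1
    rw [hx2] at this
    exact this hx.1
  have hfin2 : (B₀ \ I).Finite := (hE.subset hB₀.subset_ground).subset sdiff_subset
  calc (B₀ \ I).ncard + 1 = (g '' (B₀ \ I)).ncard + 1 := by rw [hinj.ncard_image]
    _ = (insert B₀ (g '' (B₀ \ I))).ncard := by
        rw [ncard_insert_of_notMem hnot (hfin2.image g)]
    _ ≤ _ := by
        apply ncard_le_ncard _ hfin
        rintro B (rfl | ⟨x, hx, rfl⟩)
        · exact ⟨hB₀, hI⟩
        · refine ⟨hg1 x hx.1, fun z hz => hg3 x hx.1 ⟨hI hz, ?_⟩⟩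
          rintro rfl
          exact hx.2 hz

lemma main_ineq (M : Matroid α) (hE : M.E.Finite) (hcl : ∀ e ∈ M.E, ¬ M.IsColoop e) (r : ℕ)
    (hr : ∀ B, M.IsBase B → B.ncard = r) :
    (r + 1) * nc M ≤ (M.E.ncard - r) * nb M := by
  classical
  set Ef := hE.toFinset with hEf
  set BB := (bases_finite M hE).toFinset with hBB
  set CC := (circuits_finite M hE).toFinset with hCC
  have hnb : nb M = BB.card := by
    rw [nb, ncard_eq_toFinset_card _ (bases_finite M hE)]
  have hnc : nc M = CC.card := by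
    rw [nc, ncard_eq_toFinset_card _ (circuits_finite M hE)]
  have hmemB : ∀ B, B ∈ BB ↔ M.IsBase B := by intro B; simp [hBB]
  have hmemC : ∀ C, C ∈ CC ↔ M.IsCircuit C := by intro C; simp [hCC]
  have hmemE : ∀ e, e ∈ Ef ↔ e ∈ M.E := by intro e; simp [hEf]
  -- lower bound for each circuit
  have hlow : ∀ C ∈ CC, r + 1 ≤
      ∑ e ∈ Ef, ∑ B ∈ BB, (if e ∈ C ∧ C \ {e} ⊆ B then 1 else 0) := by
    intro C hC
    rw [hmemC] at hC
    have hCfin : C.Finite := hE.subset hC.subset_ground
    have h1 : ∀ e ∈ C, r + 2 - C.ncard ≤ ∑ B ∈ BB, (if e ∈ C ∧ C \ {e} ⊆ B then 1 else 0) := by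
      intro e he
      obtain ⟨B₀, hB₀, hIB⟩ := (hC.sdiff_singleton_indep he).exists_isBase_superset
      have h2 := base_count M hE hcl (C \ {e}) B₀ hB₀ hIB
      have h3 : (B₀ \ (C \ {e})).ncard = r - (C.ncard - 1) := by
        rw [ncard_sdiff hIB (hCfin.subset sdiff_subset), hr B₀ hB₀,
          ncard_sdiff_singleton_of_mem he]
      have h4 : {B | M.IsBase B ∧ C \ {e} ⊆ B}.ncard =
          ∑ B ∈ BB, (if e ∈ C ∧ C \ {e} ⊆ B then 1 else 0) := by
        rw [← Finset.card_filter]
        rw [← ncard_coe_finset]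
        congr 1
        ext B
        simp [hmemB, he]
      rw [← h4]
      have h5 : C.ncard - 1 ≤ r := by
        rw [← hr B₀ hB₀, ← ncard_sdiff_singleton_of_mem he]
        exact ncard_le_ncard hIB (hE.subset hB₀.subset_ground)
      have h6 : 0 < C.ncard := (ncard_pos hCfin).2 hC.nonempty
      omega
    have h5 : C.ncard ≤ r + 1 := by
      obtain ⟨e, he⟩ := hC.nonempty
      obtain ⟨B₀, hB₀, hIB⟩ := (hC.sdiff_singleton_indep he).exists_isBase_superset
      have h7 : C.ncard - 1 ≤ r := by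
        rw [← hr B₀ hB₀, ← ncard_sdiff_singleton_of_mem he]
        exact ncard_le_ncard hIB (hE.subset hB₀.subset_ground)
      omega
    have h6 : 0 < C.ncard := (ncard_pos hCfin).2 hC.nonempty
    calc r + 1 ≤ C.ncard * (r + 2 - C.ncard) := by
          obtain ⟨k, hk⟩ : ∃ k, C.ncard = k + 1 := ⟨C.ncard - 1, by omega⟩
          obtain ⟨l, hl⟩ : ∃ l, r = k + l := ⟨r - k, by omega⟩
          rw [hk, hl]
          have : k + l + 2 - (k + 1) = l + 1 := by omega
          rw [this]
          nlinarith [Nat.zero_le (k * l)]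
      _ = ∑ e ∈ hCfin.toFinset, (r + 2 - C.ncard) := by
          rw [Finset.sum_const, ← ncard_eq_toFinset_card _ hCfin, smul_eq_mul]
      _ ≤ ∑ e ∈ hCfin.toFinset, ∑ B ∈ BB, (if e ∈ C ∧ C \ {e} ⊆ B then 1 else 0) := by
          apply Finset.sum_le_sum
          intro e he
          exact h1 e (by simpa using he)
      _ ≤ _ := by
          apply Finset.sum_le_sum_of_subset
          intro e he
          rw [hmemE]
          exact hC.subset_ground (by simpa using he)
  -- upper bound
  have hup : ∀ e ∈ Ef, ∀ B ∈ BB, ∑ C ∈ CC, (if e ∈ C ∧ C \ {e} ⊆ B then 1 else 0) ≤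
      (if e ∉ B then 1 else 0) := by
    intro e he B hB
    rw [hmemB] at hB
    by_cases heB : e ∈ B
    · rw [if_neg (by simpa using heB)]
      apply le_of_eq
      apply Finset.sum_eq_zero
      intro C hC
      rw [hmemC] at hC
      rw [if_neg]
      rintro ⟨h1, h2⟩
      apply hC.not_indep
      apply hB.indep.subset
      intro z hz
      by_cases hze : z = e
      · rw [hze]; exact heB
      · exact h2 ⟨hz, hze⟩
    · rw [if_pos heB, ← Finset.card_filter, Finset.card_le_one]
      intro C hC D hD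
      rw [Finset.mem_filter, hmemC] at hC hD
      have aux : ∀ C : Set α, M.IsCircuit C → C \ {e} ⊆ B → C = M.fundCircuit e B := by
        intro C hC h2
        apply hC.eq_fundCircuit_of_subset hB.indep
        intro z hz
        by_cases hze : z = e
        · left; exact hze
        · right; exact h2 ⟨hz, hze⟩
      rw [aux C hC.1 hC.2.2, aux D hD.1 hD.2.2]
  calc (r + 1) * nc M = ∑ C ∈ CC, (r + 1) := by rw [Finset.sum_const, hnc, smul_eq_mul, mul_comm]
    _ ≤ ∑ C ∈ CC, ∑ e ∈ Ef, ∑ B ∈ BB, (if e ∈ C ∧ C \ {e} ⊆ B then 1 else 0) :=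
        Finset.sum_le_sum hlow
    _ = ∑ e ∈ Ef, ∑ B ∈ BB, ∑ C ∈ CC, (if e ∈ C ∧ C \ {e} ⊆ B then 1 else 0) := by
        rw [Finset.sum_comm]
        apply Finset.sum_congr rfl
        intro e _
        rw [Finset.sum_comm]
    _ ≤ ∑ e ∈ Ef, ∑ B ∈ BB, (if e ∉ B then 1 else 0) :=
        Finset.sum_le_sum (fun e he => Finset.sum_le_sum (fun B hB => hup e he B hB))
    _ = ∑ B ∈ BB, ∑ e ∈ Ef, (if e ∉ B then 1 else 0) := Finset.sum_comm
    _ = ∑ B ∈ BB, (M.E.ncard - r) := by
        apply Finset.sum_congr rfl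
        intro B hB
        rw [hmemB] at hB
        rw [← Finset.card_filter, ← hr B hB, ← ncard_sdiff hB.subset_ground
          (hE.subset hB.subset_ground), ← ncard_coe_finset]
        congr 1
        ext z
        simp [hmemE]
    _ = _ := by rw [Finset.sum_const, hnb, smul_eq_mul, mul_comm]


section FreeExt

variable (N : Matroid α) (p : α) (m : ℕ)

/-- the free extension of `N` by `p`, in case all bases of `N` have `m` elements -/
noncomputable def fe (hE : N.E.Finite) (hm : ∀ B, N.IsBase B → B.ncard = m) (hp : p ∉ N.E) :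
    Matroid α :=
  (IndepMatroid.ofFinite (E := insert p N.E) (hE.insert p)
    (fun I => N.Indep (I \ {p}) ∧ (p ∈ I → (I \ {p}).ncard < m))
    ⟨by simp, by simp⟩
    (by
      rintro I J ⟨hJ1, hJ2⟩ hIJ
      have hsub : I \ {p} ⊆ J \ {p} := sdiff_subset_sdiff_left hIJ
      refine ⟨hJ1.subset hsub, fun hpI => ?_⟩
      refine lt_of_le_of_lt (ncard_le_ncard hsub (hE.subset hJ1.subset_ground)) (hJ2 (hIJ hpI)))
    (by
      rintro I J ⟨hI1, hI2⟩ ⟨hJ1, hJ2⟩ hcard
      have hIf : (I \ {p}).Finite := hE.subset hI1.subset_ground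
      have hJf : (J \ {p}).Finite := hE.subset hJ1.subset_ground
      have hbound : ∀ K, N.Indep K → K.ncard ≤ m := by
        intro K hK
        obtain ⟨B, hB, hKB⟩ := hK.exists_isBase_superset
        rw [← hm B hB]
        exact ncard_le_ncard hKB (hE.subset hB.subset_ground)
      have hI' : I.Finite := (hIf.union (finite_singleton p)).subset (by
        intro z hz
        by_cases h : z = p
        · right; exact h
        · left; exact ⟨hz, h⟩)
      have hJ' : J.Finite := (hJf.union (finite_singleton p)).subset (by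
        intro z hz
        by_cases h : z = p
        · right; exact h
        · left; exact ⟨hz, h⟩)
      by_cases hpI : p ∈ I
      · have hcI : (I \ {p}).ncard = I.ncard - 1 := ncard_sdiff_singleton_of_mem hpI
        have hposI : 0 < I.ncard := (ncard_pos hI').2 ⟨p, hpI⟩
        have hlt : (I \ {p}).ncard < (J \ {p}).ncard ∧ (I \ {p}).ncard + 1 < m ∨
            p ∉ J ∧ (I \ {p}).ncard + 1 < (J \ {p}).ncard := by
          by_cases hpJ : p ∈ J
          · left
            have h1 : (J \ {p}).ncard = J.ncard - 1 := ncard_sdiff_singleton_of_mem hpJ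
            have h2 := hJ2 hpJ
            constructor <;> omega
          · right
            refine ⟨hpJ, ?_⟩
            rw [sdiff_singleton_eq_self hpJ]
            omega
        have hlt2 : (I \ {p}).ncard < (J \ {p}).ncard := by
          rcases hlt with h | h
          · exact h.1
          · omega
        have hlt3 : (I \ {p}).ncard + 1 < m ∨ (I \ {p}).ncard + 1 < m := by
          rcases hlt with h | h
          · exact Or.inl h.2
          · right
            have := hbound _ hJ1
            omega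
        obtain ⟨e, heJ, heI, he⟩ : ∃ e ∈ J \ {p}, e ∉ I \ {p} ∧
            N.Indep (insert e (I \ {p})) := by
          have h3 : (I \ {p}).encard < (J \ {p}).encard := by
            rw [← hIf.cast_ncard_eq, ← hJf.cast_ncard_eq]
            exact_mod_cast hlt2
          obtain ⟨e, he, he2⟩ := hI1.augment hJ1 h3
          exact ⟨e, he.1, he.2, he2⟩
        have hep : e ≠ p := heJ.2
        have heq : insert e I \ {p} = insert e (I \ {p}) := by
          ext z
          simp only [mem_sdiff, mem_insert_iff, mem_singleton_iff]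
          constructor
          · rintro ⟨h | h, h'⟩
            · exact Or.inl h
            · exact Or.inr ⟨h, h'⟩
          · rintro (h | h)
            · exact ⟨Or.inl h, by rw [h]; exact hep⟩
            · exact ⟨Or.inr h.1, h.2⟩
        refine ⟨e, heJ.1, fun h => heI ⟨h, hep⟩, ?_, ?_⟩
        · rw [heq]; exact he
        · intro _
          rw [heq, ncard_insert_of_notMem heI hIf]
          rcases hlt3 with h | h <;> exact h
      · have hcI : I \ {p} = I := sdiff_singleton_eq_self hpI
        rw [hcI] at hI1 hIf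
        by_cases hpJ : p ∈ J
        · have h1 : (J \ {p}).ncard = J.ncard - 1 := ncard_sdiff_singleton_of_mem hpJ
          have h2 := hJ2 hpJ
          have h3 : 0 < J.ncard := (ncard_pos hJ').2 ⟨p, hpJ⟩
          refine ⟨p, hpJ, hpI, ?_, ?_⟩
          · rw [insert_sdiff_self_of_notMem hpI]; exact hI1
          · intro _
            rw [insert_sdiff_self_of_notMem hpI]
            omega
        · have hcJ : J \ {p} = J := sdiff_singleton_eq_self hpJ
          rw [hcJ] at hJ1 hJf
          have h3 : I.encard < J.encard := by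
            rw [← hIf.cast_ncard_eq, ← hJf.cast_ncard_eq]
            exact_mod_cast hcard
          obtain ⟨e, he, he2⟩ := hI1.augment hJ1 h3
          have hep : e ≠ p := by rintro rfl; exact hpJ he.1
          have hpn : p ∉ insert e I := by
            rintro (h | h)
            · exact hep h.symm
            · exact hpI h
          refine ⟨e, he.1, he.2, ?_, ?_⟩
          · rw [sdiff_singleton_eq_self hpn]; exact he2
          · intro h; exact absurd h hpn)
    (by
      rintro I ⟨hI1, _⟩ z hz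
      by_cases h : z = p
      · left; exact h
      · right; exact hI1.subset_ground ⟨hz, h⟩)).matroid

variable (hE : N.E.Finite) (hm : ∀ B, N.IsBase B → B.ncard = m) (hp : p ∉ N.E)

lemma fe_E : (fe N p m hE hm hp).E = insert p N.E := rfl

lemma fe_indep (I : Set α) : (fe N p m hE hm hp).Indep I ↔
    N.Indep (I \ {p}) ∧ (p ∈ I → (I \ {p}).ncard < m) := by
  rw [fe, IndepMatroid.matroid_indep_iff]
  rfl

lemma fe_indep_of_notMem (I : Set α) (h : p ∉ I) : (fe N p m hE hm hp).Indep I ↔ N.Indep I := by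
  rw [fe_indep, sdiff_singleton_eq_self h]
  simp [h]

include hE hm in
lemma indep_ncard_le (K : Set α) (hK : N.Indep K) : K.ncard ≤ m := by
  obtain ⟨B, hB, hKB⟩ := hK.exists_isBase_superset
  rw [← hm B hB]
  exact ncard_le_ncard hKB (hE.subset hB.subset_ground)

lemma fe_indep_ncard_le (K : Set α) (hK : (fe N p m hE hm hp).Indep K) : K.ncard ≤ m := by
  rw [fe_indep] at hK
  have hf : K.Finite := by
    refine ((hE.subset hK.1.subset_ground).union (finite_singleton p)).subset (fun z hz => ?_)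
    by_cases h : z = p
    · right; exact h
    · left; exact ⟨hz, h⟩
  by_cases hpK : p ∈ K
  · have h1 := hK.2 hpK
    rw [ncard_sdiff_singleton_of_mem hpK] at h1
    omega
  · rw [sdiff_singleton_eq_self hpK] at hK
    exact indep_ncard_le N m hE hm K hK.1

lemma fe_isBase_of_indep (K : Set α) (hK : (fe N p m hE hm hp).Indep K) (hc : K.ncard = m) :
    (fe N p m hE hm hp).IsBase K := by
  obtain ⟨B, hB, hKB⟩ := hK.exists_isBase_superset
  have h1 := fe_indep_ncard_le N p m hE hm hp B hB.indep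
  have h2 : K = B := by
    exact eq_of_subset_of_ncard_le hKB (by omega) ((hE.insert p).subset hB.subset_ground)
  rw [h2]; exact hB

lemma fe_ncard (B : Set α) (hB : (fe N p m hE hm hp).IsBase B) : B.ncard = m := by
  obtain ⟨B₀, hB₀⟩ := N.exists_isBase
  have hpB : p ∉ B₀ := fun h => hp (hB₀.subset_ground h)
  have h1 : (fe N p m hE hm hp).Indep B₀ := by
    rw [fe_indep_of_notMem _ _ _ _ _ _ _ hpB]; exact hB₀.indep
  have h2 := fe_isBase_of_indep N p m hE hm hp B₀ h1 (hm B₀ hB₀)
  rw [hB.ncard_eq_ncard_of_isBase h2, hm B₀ hB₀]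

lemma fe_free (I : Set α) (hpI : p ∉ I) (hI : (fe N p m hE hm hp).Indep I) (hc : I.ncard < m) :
    (fe N p m hE hm hp).Indep (insert p I) := by
  rw [fe_indep_of_notMem _ _ _ _ _ _ _ hpI] at hI
  rw [fe_indep, insert_sdiff_self_of_notMem hpI]
  exact ⟨hI, fun _ => hc⟩

lemma fe_nb : (N.E.ncard + 1) * nb N ≤ (N.E.ncard + 1 - m) * nb (fe N p m hE hm hp) := by
  classical
  set BB := (bases_finite N hE).toFinset with hBB
  have hEF : (fe N p m hE hm hp).E.Finite := hE.insert p
  have hmemB : ∀ B, B ∈ BB ↔ N.IsBase B := by intro B; simp [hBB]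
  have hIfin : {I | N.Indep I ∧ I.ncard + 1 = m}.Finite :=
    hE.finite_subsets.subset (fun I hI => hI.1.subset_ground)
  set II := hIfin.toFinset with hII
  have hmemI : ∀ I, I ∈ II ↔ N.Indep I ∧ I.ncard + 1 = m := by intro I; simp [hII]
  set Ef := hE.toFinset with hEf
  have hmemE : ∀ e, e ∈ Ef ↔ e ∈ N.E := by intro e; simp [hEf]
  have hnb : nb N = BB.card := by
    rw [nb, ncard_eq_toFinset_card _ (bases_finite N hE)]
  have hmle : m ≤ N.E.ncard := by
    obtain ⟨B₀, hB₀⟩ := N.exists_isBase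
    rw [← hm B₀ hB₀]
    exact ncard_le_ncard hB₀.subset_ground hE
  -- counting
  have h1 : m * nb N ≤ (N.E.ncard + 1 - m) * II.card := by
    calc m * nb N = ∑ B ∈ BB, m := by rw [Finset.sum_const, hnb, smul_eq_mul, mul_comm]
      _ = ∑ B ∈ BB, ∑ x ∈ Ef, (if x ∈ B then 1 else 0) := by
          apply Finset.sum_congr rfl
          intro B hB
          rw [hmemB] at hB
          rw [← Finset.card_filter, ← hm B hB, ← ncard_coe_finset]
          congr 1
          ext z
          simp only [Finset.coe_filter, mem_ofPred_eq, hmemE]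
          exact ⟨fun h => ⟨hB.subset_ground h, h⟩, fun h => h.2⟩
      _ ≤ ∑ B ∈ BB, ∑ x ∈ Ef, ∑ I ∈ II, (if x ∉ I ∧ insert x I = B then 1 else 0) := by
          apply Finset.sum_le_sum
          intro B hB
          rw [hmemB] at hB
          apply Finset.sum_le_sum
          intro x hx
          split_ifs with hxB
          · rw [← Finset.card_filter, Nat.one_le_iff_ne_zero, Finset.card_ne_zero]
            refine ⟨B \ {x}, ?_⟩
            rw [Finset.mem_filter, hmemI]
            refine ⟨⟨hB.indep.subset sdiff_subset, ?_⟩, fun h => h.2 rfl, ?_⟩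
            · have hf : B.Finite := hE.subset hB.subset_ground
              have h0 : 0 < B.ncard := (ncard_pos hf).2 ⟨x, hxB⟩
              rw [ncard_sdiff_singleton_of_mem hxB, hm B hB]
              rw [hm B hB] at h0
              omega
            · rw [insert_sdiff_singleton, insert_eq_of_mem hxB]
          · exact Nat.zero_le _
      _ = ∑ x ∈ Ef, ∑ B ∈ BB, ∑ I ∈ II, (if x ∉ I ∧ insert x I = B then 1 else 0) :=
          Finset.sum_comm
      _ = ∑ x ∈ Ef, ∑ I ∈ II, ∑ B ∈ BB, (if x ∉ I ∧ insert x I = B then 1 else 0) := by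
          apply Finset.sum_congr rfl
          intro x _
          exact Finset.sum_comm
      _ = ∑ I ∈ II, ∑ x ∈ Ef, ∑ B ∈ BB, (if x ∉ I ∧ insert x I = B then 1 else 0) :=
          Finset.sum_comm
      _ ≤ ∑ I ∈ II, ∑ x ∈ Ef, (if x ∉ I then 1 else 0) := by
          apply Finset.sum_le_sum
          intro I _
          apply Finset.sum_le_sum
          intro x _
          by_cases h : x ∈ I
          · simp [h]
          · simp only [h, not_false_eq_true, true_and]
            rw [Finset.sum_ite_eq]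
            split_ifs <;> simp
      _ = ∑ I ∈ II, (N.E.ncard + 1 - m) := by
          apply Finset.sum_congr rfl
          intro I hI
          rw [hmemI] at hI
          have h2 : N.E.ncard + 1 - m = (N.E \ I).ncard := by
            rw [ncard_sdiff hI.1.subset_ground (hE.subset hI.1.subset_ground)]
            omega
          rw [← Finset.card_filter, h2, ← ncard_coe_finset]
          congr 1
          ext z
          simp [hmemE]
      _ = _ := by rw [Finset.sum_const, smul_eq_mul, mul_comm]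
  have h2 : nb N + II.card ≤ nb (fe N p m hE hm hp) := by
    have hinj : InjOn (fun I : Set α => insert p I) (II : Set (Set α)) := by
      intro I hI J hJ hIJ
      rw [Finset.mem_coe, hmemI] at hI hJ
      have hpI : p ∉ I := fun h => hp (hI.1.subset_ground h)
      have hpJ : p ∉ J := fun h => hp (hJ.1.subset_ground h)
      have : insert p I \ {p} = insert p J \ {p} := by
        simp only at hIJ
        rw [hIJ]
      rwa [insert_sdiff_self_of_notMem hpI, insert_sdiff_self_of_notMem hpJ] at this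
    have hdisj : Disjoint BB (II.image (fun I : Set α => insert p I)) := by
      rw [Finset.disjoint_left]
      intro B hB hB2
      rw [hmemB] at hB
      rw [Finset.mem_image] at hB2
      obtain ⟨I, _, rfl⟩ := hB2
      exact hp (hB.subset_ground (mem_insert _ _))
    calc nb N + II.card = (BB ∪ II.image (fun I : Set α => insert p I)).card := by
          rw [Finset.card_union_of_disjoint hdisj, Finset.card_image_of_injOn hinj, hnb]
      _ ≤ _ := by
          rw [nb, ← ncard_coe_finset]
          apply ncard_le_ncard _ (bases_finite _ hEF)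
          intro B hB
          rw [Finset.mem_coe, Finset.mem_union, hmemB, Finset.mem_image] at hB
          rcases hB with hB | ⟨I, hI, rfl⟩
          · have hpB : p ∉ B := fun h => hp (hB.subset_ground h)
            exact fe_isBase_of_indep N p m hE hm hp B
              ((fe_indep_of_notMem N p m hE hm hp B hpB).2 hB.indep) (hm B hB)
          · rw [hmemI] at hI
            have hpI : p ∉ I := fun h => hp (hI.1.subset_ground h)
            refine fe_isBase_of_indep N p m hE hm hp _ (fe_free N p m hE hm hp I hpI ?_ ?_) ?_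
            · rw [fe_indep_of_notMem _ _ _ _ _ _ _ hpI]; exact hI.1
            · omega
            · rw [ncard_insert_of_notMem hpI (hE.subset hI.1.subset_ground)]
              exact hI.2
  calc (N.E.ncard + 1) * nb N = (N.E.ncard + 1 - m) * nb N + m * nb N := by
        rw [← add_mul]; congr 1; omega
    _ ≤ (N.E.ncard + 1 - m) * nb N + (N.E.ncard + 1 - m) * II.card := by omega
    _ = (N.E.ncard + 1 - m) * (nb N + II.card) := by ring
    _ ≤ _ := Nat.mul_le_mul_left _ h2

end FreeExt


section Classes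

/-- number of cocircuits -/
noncomputable def nk (M : Matroid α) : ℕ := {K | M.IsCocircuit K}.ncard

lemma nk_eq_nc_dual (M : Matroid α) : nk M = nc M✶ := rfl

lemma nb_congr (M N : Matroid α) (h : ∀ B, M.IsBase B ↔ N.IsBase B) : nb M = nb N := by
  unfold nb; simp only [h]

lemma nk_congr (M N : Matroid α) (h : ∀ B, M.IsBase B ↔ N.IsBase B) : nk M = nk N := by
  unfold nk; simp only [isCocircuit_iff_minimal, h]

lemma nb_dual (M : Matroid α) : nb M✶ = nb M := by
  unfold nb
  apply ncard_congr (fun B _ => M.E \ B)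
  · intro B hB
    exact (dual_isBase_iff'.1 hB).1
  · intro B B' hB hB' h
    have h1 := (dual_isBase_iff'.1 hB).2
    have h2 := (dual_isBase_iff'.1 hB').2
    rw [← sdiff_sdiff_cancel_left h1, ← sdiff_sdiff_cancel_left h2, h]
  · intro B hB
    refine ⟨M.E \ B, IsBase.compl_isBase_dual hB, ?_⟩
    exact sdiff_sdiff_cancel_left (IsBase.subset_ground hB)

lemma mapEquiv_mapEquiv {β γ : Type*} (M : Matroid α) (e : α ≃ β) (f : β ≃ γ) :
    (M.mapEquiv e).mapEquiv f = M.mapEquiv (e.trans f) := by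
  apply ext_indep
  · simp only [mapEquiv_ground_eq]
    rw [← image_comp]; rfl
  · intro I _
    simp only [mapEquiv_indep_iff]
    have : e.symm '' (f.symm '' I) = (e.trans f).symm '' I := by
      rw [← image_comp]; rfl
    rw [this]

lemma mapEquiv_refl (M : Matroid α) : M.mapEquiv (Equiv.refl α) = M := by
  apply ext_indep
  · simp
  · intro I _; simp

lemma mapEquiv_isCircuit {β : Type*} (M : Matroid α) (e : α ≃ β) (C : Set β) :
    (M.mapEquiv e).IsCircuit C ↔ M.IsCircuit (e.symm '' C) := by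
  rw [isCircuit_iff, isCircuit_iff, mapEquiv_dep_iff]
  refine and_congr_right (fun _ => ⟨fun h D hD hDC => ?_, fun h D hD hDC => ?_⟩)
  · have h1 := @h (e '' D) (by rw [mapEquiv_dep_iff]; simpa using hD) (by
      rintro _ ⟨z, hz, rfl⟩
      obtain ⟨w, hw, hw2⟩ := hDC hz
      rw [← hw2]; simpa using hw)
    rw [← h1]; simp
  · rw [mapEquiv_dep_iff] at hD
    have h1 := h hD (image_mono hDC)
    exact e.symm.injective.image_injective h1

lemma nb_mapEquiv {β : Type*} (M : Matroid α) (e : α ≃ β) : nb (M.mapEquiv e) = nb M := by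
  unfold nb
  symm
  apply ncard_congr (fun B _ => e '' B)
  · intro B hB
    simpa using hB
  · intro B B' _ _ h
    exact e.injective.image_injective h
  · intro B hB
    refine ⟨e.symm '' B, by simpa using hB, by simp⟩

lemma nc_mapEquiv {β : Type*} (M : Matroid α) (e : α ≃ β) : nc (M.mapEquiv e) = nc M := by
  unfold nc
  symm
  apply ncard_congr (fun B _ => e '' B)
  · intro B hB
    show (M.mapEquiv e).IsCircuit _
    rw [mapEquiv_isCircuit]
    simpa using hB
  · intro B B' _ _ h
    exact e.injective.image_injective h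
  · intro B hB
    refine ⟨e.symm '' B, (mapEquiv_isCircuit M e B).1 hB, by simp⟩

lemma mapEquiv_dual {β : Type*} (M : Matroid α) (e : α ≃ β) : (M.mapEquiv e)✶ = M✶.mapEquiv e := by
  rw [mapEquiv_eq_map, mapEquiv_eq_map, map_dual]

lemma nk_mapEquiv {β : Type*} (M : Matroid α) (e : α ≃ β) : nk (M.mapEquiv e) = nk M := by
  rw [nk_eq_nc_dual, nk_eq_nc_dual, mapEquiv_dual, nc_mapEquiv]

/-- isomorphism of matroids on `ℕ` -/
def Iso (M N : Matroid ℕ) : Prop := ∃ e : ℕ ≃ ℕ, M.mapEquiv e = N

instance isoSetoid : Setoid (Matroid ℕ) where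
  r := Iso
  iseqv := ⟨fun M => ⟨Equiv.refl ℕ, mapEquiv_refl M⟩,
    by
      rintro M N ⟨e, rfl⟩
      exact ⟨e.symm, by rw [mapEquiv_mapEquiv]; simp [mapEquiv_refl]⟩,
    by
      rintro M N P ⟨e, rfl⟩ ⟨f, rfl⟩
      exact ⟨e.trans f, by rw [mapEquiv_mapEquiv]⟩⟩

abbrev Cl := Quotient isoSetoid

noncomputable def nbq : Cl → ℕ := Quotient.lift nb (by
  rintro M N ⟨e, rfl⟩; exact (nb_mapEquiv M e).symm)
noncomputable def nkq : Cl → ℕ := Quotient.lift nk (by
  rintro M N ⟨e, rfl⟩; exact (nk_mapEquiv M e).symm)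

/-- matroids on `{0..n-1}` with all bases of size `m` -/
def G (m n : ℕ) : Set (Matroid ℕ) := {N | N.E = Iio n ∧ ∀ B, N.IsBase B → B.ncard = m}

def G0 (m n : ℕ) : Set (Matroid ℕ) := {N | N ∈ G m n ∧ ∀ e ∈ N.E, ¬ N.IsLoop e}

def cl (m n : ℕ) : Set Cl := (fun N => (⟦N⟧ : Cl)) '' G m n
def cl0 (m n : ℕ) : Set Cl := (fun N => (⟦N⟧ : Cl)) '' G0 m n

lemma G_finite (m n : ℕ) : (G m n).Finite :=
  (finite_setOfPred_matroid' (finite_Iio n)).subset (fun _ h => h.1)

lemma cl_finite (m n : ℕ) : (cl m n).Finite := (G_finite m n).image _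
lemma cl0_finite (m n : ℕ) : (cl0 m n).Finite :=
  ((G_finite m n).subset (fun _ h => h.1)).image _

lemma swap_loops (M : Matroid ℕ) (x y : ℕ) (hx : M.IsLoop x) (hy : M.IsLoop y) :
    M.mapEquiv (Equiv.swap x y) = M := by
  have hxE : x ∈ M.E := hx.mem_ground
  have hyE : y ∈ M.E := hy.mem_ground
  have hnot : ∀ (z : ℕ) (I : Set ℕ), M.IsLoop z → M.Indep I → z ∉ I := by
    intro z I hz hI hzI
    exact (singleton_dep.2 hz).not_indep (hI.subset (singleton_subset_iff.2 hzI))
  have himg : ∀ I : Set ℕ, x ∉ I → y ∉ I → (Equiv.swap x y) '' I = I := by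
    intro I hx hy
    ext z
    constructor
    · rintro ⟨w, hw, rfl⟩
      rw [Equiv.swap_apply_of_ne_of_ne]
      · exact hw
      · rintro rfl; exact hx hw
      · rintro rfl; exact hy hw
    · intro hz
      refine ⟨z, hz, ?_⟩
      rw [Equiv.swap_apply_of_ne_of_ne]
      · rintro rfl; exact hx hz
      · rintro rfl; exact hy hz
  apply ext_indep
  · rw [mapEquiv_ground_eq]
    ext z
    constructor
    · rintro ⟨w, hw, rfl⟩
      by_cases h1 : w = x
      · rw [h1, Equiv.swap_apply_left]; exact hyE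
      · by_cases h2 : w = y
        · rw [h2, Equiv.swap_apply_right]; exact hxE
        · rw [Equiv.swap_apply_of_ne_of_ne h1 h2]; exact hw
    · intro hz
      by_cases h1 : z = x
      · exact ⟨y, hyE, by rw [Equiv.swap_apply_right, h1]⟩
      · by_cases h2 : z = y
        · exact ⟨x, hxE, by rw [Equiv.swap_apply_left, h2]⟩
        · exact ⟨z, hz, Equiv.swap_apply_of_ne_of_ne h1 h2⟩
  · intro I _
    rw [mapEquiv_indep_iff, Equiv.symm_swap]
    constructor
    · intro h
      have h1 := hnot x _ hx h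
      have h2 := hnot y _ hy h
      have h3 : x ∉ I := by
        intro h4; apply h2; exact ⟨x, h4, Equiv.swap_apply_left x y⟩
      have h5 : y ∉ I := by
        intro h4; apply h1; exact ⟨y, h4, Equiv.swap_apply_right x y⟩
      rwa [himg I h3 h5] at h
    · intro h
      rw [himg I (hnot x I hx h) (hnot y I hy h)]
      exact h

lemma swap_free (M : Matroid ℕ) (m : ℕ) (x y : ℕ) (hxE : x ∈ M.E) (hyE : y ∈ M.E)
    (hEf : M.E.Finite) (hle : ∀ I, M.Indep I → I.ncard ≤ m)
    (hx : ∀ I, x ∉ I → M.Indep I → I.ncard < m → M.Indep (insert x I))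
    (hy : ∀ I, y ∉ I → M.Indep I → I.ncard < m → M.Indep (insert y I)) :
    M.mapEquiv (Equiv.swap x y) = M := by
  have key : ∀ I, M.Indep I → M.Indep (Equiv.swap x y '' I) := by
    have aux : ∀ x y : ℕ, (∀ I, y ∉ I → M.Indep I → I.ncard < m → M.Indep (insert y I)) →
        ∀ I, M.Indep I → x ∈ I → y ∉ I → M.Indep (Equiv.swap x y '' I) := by
      intro x y hy I hI hxI hyI
      have h1 : Equiv.swap x y '' I = insert y (I \ {x}) := by
        ext z
        constructor
        · rintro ⟨w, hw, rfl⟩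
          by_cases h1 : w = x
          · left; rw [h1, Equiv.swap_apply_left]
          · right
            rw [Equiv.swap_apply_of_ne_of_ne h1 (by rintro rfl; exact hyI hw)]
            exact ⟨hw, h1⟩
        · rintro (h | h)
          · exact ⟨x, hxI, by rw [Equiv.swap_apply_left, h]⟩
          · refine ⟨z, h.1, ?_⟩
            rw [Equiv.swap_apply_of_ne_of_ne h.2 (by rintro rfl; exact hyI h.1)]
      rw [h1]
      have hIf : I.Finite := hEf.subset hI.subset_ground
      apply hy
      · exact fun h => hyI h.1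
      · exact hI.subset sdiff_subset
      · rw [ncard_sdiff_singleton_of_mem hxI]
        have h2 := hle I hI
        have h3 : 0 < I.ncard := (ncard_pos hIf).2 ⟨x, hxI⟩
        omega
    intro I hI
    by_cases hxI : x ∈ I
    · by_cases hyI : y ∈ I
      · have h1 : Equiv.swap x y '' I = I := by
          ext z
          constructor
          · rintro ⟨w, hw, rfl⟩
            by_cases h1 : w = x
            · rw [h1, Equiv.swap_apply_left]; exact hyI
            · by_cases h2 : w = y
              · rw [h2, Equiv.swap_apply_right]; exact hxI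
              · rw [Equiv.swap_apply_of_ne_of_ne h1 h2]; exact hw
          · intro hz
            by_cases h1 : z = x
            · exact ⟨y, hyI, by rw [Equiv.swap_apply_right, h1]⟩
            · by_cases h2 : z = y
              · exact ⟨x, hxI, by rw [Equiv.swap_apply_left, h2]⟩
              · exact ⟨z, hz, Equiv.swap_apply_of_ne_of_ne h1 h2⟩
        rw [h1]; exact hI
      · exact aux x y hy I hI hxI hyI
    · by_cases hyI : y ∈ I
      · rw [Equiv.swap_comm]
        exact aux y x hx I hI hyI hxI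
      · have h1 : Equiv.swap x y '' I = I := by
          ext z
          constructor
          · rintro ⟨w, hw, rfl⟩
            rw [Equiv.swap_apply_of_ne_of_ne]
            · exact hw
            · rintro rfl; exact hxI hw
            · rintro rfl; exact hyI hw
          · intro hz
            refine ⟨z, hz, ?_⟩
            rw [Equiv.swap_apply_of_ne_of_ne]
            · rintro rfl; exact hxI hz
            · rintro rfl; exact hyI hz
        rw [h1]; exact hI
  have hE : Equiv.swap x y '' M.E = M.E := by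
    ext z
    constructor
    · rintro ⟨w, hw, rfl⟩
      by_cases h1 : w = x
      · rw [h1, Equiv.swap_apply_left]; exact hyE
      · by_cases h2 : w = y
        · rw [h2, Equiv.swap_apply_right]; exact hxE
        · rw [Equiv.swap_apply_of_ne_of_ne h1 h2]; exact hw
    · intro hz
      by_cases h1 : z = x
      · exact ⟨y, hyE, by rw [Equiv.swap_apply_right, h1]⟩
      · by_cases h2 : z = y
        · exact ⟨x, hxE, by rw [Equiv.swap_apply_left, h2]⟩
        · exact ⟨z, hz, Equiv.swap_apply_of_ne_of_ne h1 h2⟩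
  apply ext_indep
  · rw [mapEquiv_ground_eq, hE]
  · intro I _
    rw [mapEquiv_indep_iff, Equiv.symm_swap]
    refine ⟨fun h => ?_, key I⟩
    have := key _ h
    rw [← image_comp] at this
    have h2 : (Equiv.swap x y : ℕ → ℕ) ∘ (Equiv.swap x y) = id := by
      ext z; simp
    rwa [h2, image_id] at this

lemma descend (n : ℕ) (N₁ N₂ M₁ M₂ : Matroid ℕ) (e : ℕ ≃ ℕ) (he : M₁.mapEquiv e = M₂) (hn : e n = n)
    (hE₁ : N₁.E = M₁.E \ {n}) (hE₂ : N₂.E = M₂.E \ {n})
    (h₁ : ∀ I, N₁.Indep I ↔ M₁.Indep I ∧ n ∉ I) (h₂ : ∀ I, N₂.Indep I ↔ M₂.Indep I ∧ n ∉ I) :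
    N₁.mapEquiv e = N₂ := by
  have hn2 : e.symm n = n := by rw [Equiv.symm_apply_eq, hn]
  apply ext_indep
  · rw [mapEquiv_ground_eq, hE₁, hE₂, ← he, mapEquiv_ground_eq, image_sdiff e.injective,
      image_singleton, hn]
  · intro I _
    rw [mapEquiv_indep_iff, h₁, h₂, ← he, mapEquiv_indep_iff]
    refine and_congr_right (fun _ => not_congr ?_)
    constructor
    · rintro ⟨z, hz, hz2⟩
      rw [Equiv.symm_apply_eq, hn] at hz2
      rwa [← hz2]
    · intro h
      exact ⟨n, h, hn2⟩

end Classes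


section Steps

variable {m n : ℕ}

instance : Nonempty (Matroid ℕ) := ⟨Matroid.emptyOn ℕ⟩

lemma base_iff_of_indep_iff (M N : Matroid α) (h : ∀ I, M.Indep I ↔ N.Indep I) (B : Set α) :
    M.IsBase B ↔ N.IsBase B := by
  have : M.Indep = N.Indep := by ext I; exact h I
  rw [isBase_iff_maximal_indep, isBase_iff_maximal_indep, this]

lemma addLoop_indep {N : Matroid ℕ} (hN : N ∈ G m n) (I : Set ℕ) :
    (N ↾ Iio (n + 1)).Indep I ↔ N.Indep I := by
  rw [restrict_indep_iff]
  refine ⟨fun h => h.1, fun h => ⟨h, ?_⟩⟩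
  refine h.subset_ground.trans ?_
  rw [hN.1]
  exact Iio_subset_Iio (Nat.le_succ n)

lemma addLoop_isBase {N : Matroid ℕ} (hN : N ∈ G m n) (B : Set ℕ) :
    (N ↾ Iio (n + 1)).IsBase B ↔ N.IsBase B :=
  base_iff_of_indep_iff _ _ (addLoop_indep hN) B

lemma addLoop_mem {N : Matroid ℕ} (hN : N ∈ G m n) : N ↾ Iio (n + 1) ∈ G m (n + 1) :=
  ⟨rfl, fun B hB => hN.2 B ((addLoop_isBase hN B).1 hB)⟩

lemma addLoop_loop {N : Matroid ℕ} (hN : N ∈ G m n) : (N ↾ Iio (n + 1)).IsLoop n := by
  rw [← singleton_not_indep (by simp), addLoop_indep hN]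
  intro h
  have := h.subset_ground (mem_singleton n)
  rw [hN.1] at this
  exact lt_irrefl n this

lemma mapEquiv_isLoop (M : Matroid ℕ) (e : ℕ ≃ ℕ) (x : ℕ) :
    (M.mapEquiv e).IsLoop x ↔ M.IsLoop (e.symm x) := by
  rw [← singleton_dep, ← singleton_dep, mapEquiv_dep_iff, image_singleton]

lemma fix_last (M₁ M₂ : Matroid ℕ) (e : ℕ ≃ ℕ) (he : M₁.mapEquiv e = M₂) (n : ℕ)
    (hs : M₂.mapEquiv (Equiv.swap (e n) n) = M₂) :
    ∃ e' : ℕ ≃ ℕ, M₁.mapEquiv e' = M₂ ∧ e' n = n := by
  refine ⟨e.trans (Equiv.swap (e n) n), ?_, ?_⟩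
  · rw [← mapEquiv_mapEquiv, he, hs]
  · simp

lemma lift_iso {N₁ N₂ : Matroid ℕ} (h₁ : N₁ ∈ G m n) (h₂ : N₂ ∈ G m n) (h : Iso N₁ N₂) :
    Iso (N₁ ↾ Iio (n + 1)) (N₂ ↾ Iio (n + 1)) := by
  obtain ⟨e, he⟩ := h
  have hE : e '' Iio n = Iio n := by
    have : (N₁.mapEquiv e).E = N₂.E := by rw [he]
    rwa [mapEquiv_ground_eq, h₁.1, h₂.1] at this
  have hlt : ∀ x, x < n → e x < n := by
    intro x hx
    have : e x ∈ e '' Iio n := ⟨x, hx, rfl⟩
    rwa [hE] at this
  set e' := e.trans (Equiv.swap (e n) n) with he'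
  have hn : e' n = n := by simp [he']
  have heq : ∀ x, x < n → e' x = e x := by
    intro x hx
    rw [he', Equiv.trans_apply, Equiv.swap_apply_of_ne_of_ne]
    · intro h'
      have := e.injective h'
      omega
    · have := hlt x hx
      omega
  have himg : ∀ K : Set ℕ, K ⊆ Iio n → e' '' K = e '' K := by
    intro K hK
    apply image_congr
    intro x hx
    exact heq x (hK hx)
  refine ⟨e', ?_⟩
  have hI : Iio (n + 1) = insert n (Iio n) := by
    ext z; simp only [mem_Iio, mem_insert_iff]; omega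
  apply ext_indep
  · rw [mapEquiv_ground_eq, restrict_ground_eq, restrict_ground_eq, hI, image_insert_eq, hn,
      himg _ subset_rfl, hE]
  · intro I _
    rw [mapEquiv_indep_iff, addLoop_indep h₁, addLoop_indep h₂, ← he, mapEquiv_indep_iff]
    constructor
    · intro h
      have h3 : e'.symm '' I ⊆ Iio n := by
        have := h.subset_ground
        rwa [h₁.1] at this
      have h4 : I = e '' (e'.symm '' I) := by
        rw [← himg _ h3, ← image_comp]
        simp
      rw [h4, ← image_comp]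
      simp only [Equiv.symm_comp_self, image_id]
      exact h
    · intro h
      have h3 : e.symm '' I ⊆ Iio n := by
        have := h.subset_ground
        rwa [h₁.1] at this
      have h4 : I = e' '' (e.symm '' I) := by
        rw [himg _ h3, ← image_comp]
        simp
      rw [h4, ← image_comp]
      simp only [Equiv.symm_comp_self, image_id]
      exact h

lemma addLoop_inj {N₁ N₂ : Matroid ℕ} (h₁ : N₁ ∈ G m n) (h₂ : N₂ ∈ G m n)
    (h : Iso (N₁ ↾ Iio (n + 1)) (N₂ ↾ Iio (n + 1))) : Iso N₁ N₂ := by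
  obtain ⟨e, he⟩ := h
  have hl : (N₂ ↾ Iio (n + 1)).IsLoop (e n) := by
    rw [← he, mapEquiv_isLoop]
    simpa using addLoop_loop h₁
  obtain ⟨e', he', hn⟩ := fix_last _ _ e he n (swap_loops _ _ _ hl (addLoop_loop h₂))
  refine ⟨e', descend n N₁ N₂ _ _ e' he' hn ?_ ?_ ?_ ?_⟩
  · rw [h₁.1, restrict_ground_eq]; ext z; simp only [mem_Iio, mem_sdiff, mem_singleton_iff]; omega
  · rw [h₂.1, restrict_ground_eq]; ext z; simp only [mem_Iio, mem_sdiff, mem_singleton_iff]; omega
  · intro I
    rw [addLoop_indep h₁]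
    refine ⟨fun h => ⟨h, fun hn => ?_⟩, fun h => h.1⟩
    have := h.subset_ground hn
    rw [h₁.1] at this
    exact lt_irrefl n this
  · intro I
    rw [addLoop_indep h₂]
    refine ⟨fun h => ⟨h, fun hn => ?_⟩, fun h => h.1⟩
    have := h.subset_ground hn
    rw [h₂.1] at this
    exact lt_irrefl n this

lemma exists_addLoop {N : Matroid ℕ} (hN : N ∈ G m (n + 1)) (x : ℕ) (hx : N.IsLoop x) :
    ∃ N₁ ∈ G m n, Iso (N₁ ↾ Iio (n + 1)) N := by
  have hxE : x ∈ Iio (n + 1) := by rw [← hN.1]; exact hx.mem_ground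
  have hbij : Equiv.swap x n '' Iio (n + 1) = Iio (n + 1) := by
    ext z
    constructor
    · rintro ⟨w, hw, rfl⟩
      by_cases h1 : w = x
      · rw [h1, Equiv.swap_apply_left]; simp
      · by_cases h2 : w = n
        · rw [h2, Equiv.swap_apply_right]; exact hxE
        · rw [Equiv.swap_apply_of_ne_of_ne h1 h2]; exact hw
    · intro hz
      by_cases h1 : z = x
      · exact ⟨n, by simp, by rw [Equiv.swap_apply_right, h1]⟩
      · by_cases h2 : z = n
        · exact ⟨x, hxE, by rw [Equiv.swap_apply_left, h2]⟩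
        · exact ⟨z, hz, Equiv.swap_apply_of_ne_of_ne h1 h2⟩
  set M := N.mapEquiv (Equiv.swap x n) with hM
  have hME : M.E = Iio (n + 1) := by rw [hM, mapEquiv_ground_eq, hN.1, hbij]
  have hMl : M.IsLoop n := by
    rw [hM, mapEquiv_isLoop, Equiv.symm_swap, Equiv.swap_apply_right]; exact hx
  have hMb : ∀ B, M.IsBase B → B.ncard = m := by
    intro B hB
    rw [hM, mapEquiv_isBase_iff] at hB
    rw [← hN.2 _ hB, ncard_image_of_injective _ (Equiv.injective _)]
  have hnot : ∀ I, M.Indep I → n ∉ I := fun I hI hn =>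
    (singleton_dep.2 hMl).not_indep (hI.subset (singleton_subset_iff.2 hn))
  have hind : ∀ I, (M ↾ Iio n).Indep I ↔ M.Indep I := by
    intro I
    rw [restrict_indep_iff]
    refine ⟨fun h => h.1, fun h => ⟨h, fun z hz => ?_⟩⟩
    have h1 := h.subset_ground hz
    rw [hME] at h1
    have h2 : z ≠ n := by rintro rfl; exact hnot I h hz
    simp only [mem_Iio] at h1 ⊢
    omega
  have hG : M ↾ Iio n ∈ G m n :=
    ⟨rfl, fun B hB => hMb B ((base_iff_of_indep_iff _ _ hind B).1 hB)⟩
  refine ⟨M ↾ Iio n, hG, Equiv.swap x n, ?_⟩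
  have h1 : M ↾ Iio n ↾ Iio (n + 1) = M := by
    apply ext_indep
    · rw [restrict_ground_eq, hME]
    · intro I _
      rw [addLoop_indep hG, hind]
  rw [h1, hM, mapEquiv_mapEquiv]
  have : (Equiv.swap x n).trans (Equiv.swap x n) = Equiv.refl ℕ := by
    ext z; simp
  rw [this, mapEquiv_refl]

lemma quot_eq {M N : Matroid ℕ} : (⟦M⟧ : Cl) = ⟦N⟧ ↔ Iso M N := Quotient.eq

lemma sum_step (F : Cl → ℤ) (hF : ∀ N ∈ G m n, F ⟦N ↾ Iio (n + 1)⟧ = F ⟦N⟧) :
    ∑ q ∈ (cl_finite m (n + 1)).toFinset, F q =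
      ∑ q ∈ (cl0_finite m (n + 1)).toFinset, F q + ∑ q ∈ (cl_finite m n).toFinset, F q := by
  classical
  have hrep : ∀ q ∈ cl m n, ∃ N ∈ G m n, (⟦N⟧ : Cl) = q := fun q hq => hq
  choose! rep hrep1 hrep2 using hrep
  set J : Cl → Cl := fun q => ⟦rep q ↾ Iio (n + 1)⟧ with hJ
  have hinj : InjOn J ((cl_finite m n).toFinset : Set Cl) := by
    intro q hq q' hq' h
    rw [Finite.coe_toFinset] at hq hq'
    rw [← hrep2 q hq, ← hrep2 q' hq', quot_eq]
    exact addLoop_inj (hrep1 q hq) (hrep1 q' hq') (quot_eq.1 h)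
  have hunion : (cl_finite m (n + 1)).toFinset =
      (cl0_finite m (n + 1)).toFinset ∪ ((cl_finite m n).toFinset).image J := by
    ext q
    rw [Finset.mem_union, Finset.mem_image, Finite.mem_toFinset, Finite.mem_toFinset]
    constructor
    · rintro ⟨N, hN, rfl⟩
      by_cases hl : ∀ e ∈ N.E, ¬ N.IsLoop e
      · left; exact ⟨N, ⟨hN, hl⟩, rfl⟩
      · right
        push Not at hl
        obtain ⟨x, _, hx⟩ := hl
        obtain ⟨N₁, hN₁, hiso⟩ := exists_addLoop hN x hx
        have hq : (⟦N₁⟧ : Cl) ∈ cl m n := ⟨N₁, hN₁, rfl⟩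
        refine ⟨⟦N₁⟧, by rwa [Finite.mem_toFinset], ?_⟩
        rw [hJ]
        have h1 : Iso (rep ⟦N₁⟧) N₁ := quot_eq.1 (hrep2 _ hq)
        have h2 := lift_iso (hrep1 _ hq) hN₁ h1
        exact (quot_eq.2 h2).trans (quot_eq.2 hiso)
    · rintro (⟨N, hN, rfl⟩ | ⟨q, hq, rfl⟩)
      · exact ⟨N, hN.1, rfl⟩
      · rw [Finite.mem_toFinset] at hq
        exact ⟨_, addLoop_mem (hrep1 q hq), rfl⟩
  have hdisj : Disjoint (cl0_finite m (n + 1)).toFinset (((cl_finite m n).toFinset).image J) := by
    rw [Finset.disjoint_left]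
    intro q hq hq'
    rw [Finite.mem_toFinset] at hq
    obtain ⟨N, hN, rfl⟩ := hq
    rw [Finset.mem_image] at hq'
    obtain ⟨q', hq', h⟩ := hq'
    rw [Finite.mem_toFinset] at hq'
    obtain ⟨e, he⟩ : Iso (rep q' ↾ Iio (n + 1)) N := quot_eq.1 h
    have hl : N.IsLoop (e n) := by
      rw [← he, mapEquiv_isLoop]
      simpa using addLoop_loop (hrep1 q' hq')
    exact hN.2 _ hl.mem_ground hl
  rw [hunion, Finset.sum_union hdisj, Finset.sum_image hinj]
  congr 1
  apply Finset.sum_congr rfl
  intro q hq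
  rw [Finite.mem_toFinset] at hq
  rw [hJ]
  simp only
  rw [hF _ (hrep1 q hq), hrep2 q hq]

lemma growth (hm : 1 ≤ m) :
    (n + 1) * ∑ q ∈ (cl0_finite m n).toFinset, nbq q ≤
      (n + 1 - m) * ∑ q ∈ (cl0_finite m (n + 1)).toFinset, nbq q := by
  classical
  have hrep : ∀ q ∈ cl0 m n, ∃ N N' : Matroid ℕ, N ∈ G0 m n ∧ (⟦N⟧ : Cl) = q ∧ N' ∈ G0 m (n + 1) ∧
      (∀ I, N.Indep I ↔ N'.Indep I ∧ n ∉ I) ∧
      (∀ I, n ∉ I → N'.Indep I → I.ncard < m → N'.Indep (insert n I)) ∧
      (n + 1) * nb N ≤ (n + 1 - m) * nb N' := by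
    rintro q ⟨N, hN, rfl⟩
    have hE : N.E.Finite := by rw [hN.1.1]; exact finite_Iio n
    have hp : n ∉ N.E := by rw [hN.1.1]; simp
    have hcard : N.E.ncard = n := by rw [hN.1.1]; simp
    refine ⟨N, fe N n m hE hN.1.2 hp, hN, rfl, ⟨⟨?_, ?_⟩, ?_⟩, ?_, ?_, ?_⟩
    · rw [fe_E, hN.1.1]
      ext z; simp only [mem_Iio, mem_insert_iff]; omega
    · exact fun B hB => fe_ncard N n m hE hN.1.2 hp B hB
    · intro e he
      rw [← singleton_dep]
      intro hd
      apply hd.not_indep
      rw [fe_indep]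
      by_cases hen : e = n
      · subst hen
        simp only [sdiff_self, empty_indep, mem_singleton_iff, ncard_empty, forall_const, true_and,
          bot_eq_empty]
        omega
      · have h1 : ({e} : Set ℕ) \ {n} = {e} := by
          ext z; simp only [mem_sdiff, mem_singleton_iff]
          constructor
          · exact fun h => h.1
          · exact fun h => ⟨h, by rw [h]; exact hen⟩
        rw [h1]
        refine ⟨?_, fun h => absurd h.symm (by simpa using hen)⟩
        rw [fe_E] at he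
        rcases he with he | he
        · exact absurd he hen
        · by_contra hni
          exact hN.2 e he ((singleton_not_indep he).1 hni)
    · intro I
      constructor
      · intro h
        have h1 : n ∉ I := fun h' => hp (h.subset_ground h')
        exact ⟨(fe_indep_of_notMem N n m hE hN.1.2 hp I h1).2 h, h1⟩
      · rintro ⟨h, h1⟩
        exact (fe_indep_of_notMem N n m hE hN.1.2 hp I h1).1 h
    · exact fun I h1 h2 h3 => fe_free N n m hE hN.1.2 hp I h1 h2 h3
    · have := fe_nb N n m hE hN.1.2 hp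
      rwa [hcard] at this
  choose! rep rep' h1 h2 h3 h4 h5 h6 using hrep
  have hinj : InjOn (fun q => (⟦rep' q⟧ : Cl)) ((cl0_finite m n).toFinset : Set Cl) := by
    intro q hq q' hq' h
    rw [Finite.coe_toFinset] at hq hq'
    obtain ⟨e, he⟩ : Iso (rep' q) (rep' q') := quot_eq.1 h
    have hE' : (rep' q').E = Iio (n + 1) := (h3 q' hq').1.1
    have hle : ∀ q ∈ cl0 m n, ∀ I, (rep' q).Indep I → I.ncard ≤ m := by
      intro q hq I hI
      exact indep_ncard_le (rep' q) m (by rw [(h3 q hq).1.1]; exact finite_Iio _)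
        (h3 q hq).1.2 I hI
    have hEe : e n ∈ (rep' q').E := by
      rw [← he, mapEquiv_ground_eq]
      refine ⟨n, ?_, rfl⟩
      rw [(h3 q hq).1.1]; simp
    have hs : (rep' q').mapEquiv (Equiv.swap (e n) n) = rep' q' := by
      apply swap_free (rep' q') m (e n) n hEe
      · rw [hE']; simp
      · rw [hE']; exact finite_Iio _
      · exact hle q' hq'
      · intro I hnI hI hc
        rw [← he, mapEquiv_indep_iff] at hI ⊢
        rw [image_insert_eq, Equiv.symm_apply_apply]
        apply h5 q hq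
        · rintro ⟨z, hz, hz2⟩
          rw [Equiv.symm_apply_eq] at hz2
          rw [← hz2] at hnI
          exact hnI hz
        · exact hI
        · rwa [ncard_image_of_injective _ (Equiv.injective _)]
      · exact h5 q' hq'
    obtain ⟨e', he', hn⟩ := fix_last _ _ e he n hs
    rw [← h2 q hq, ← h2 q' hq', quot_eq]
    refine ⟨e', descend n _ _ _ _ e' he' hn ?_ ?_ (h4 q hq) (h4 q' hq')⟩
    · rw [(h1 q hq).1.1, (h3 q hq).1.1]
      ext z; simp only [mem_Iio, mem_sdiff, mem_singleton_iff]; omega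
    · rw [(h1 q' hq').1.1, (h3 q' hq').1.1]
      ext z; simp only [mem_Iio, mem_sdiff, mem_singleton_iff]; omega
  calc (n + 1) * ∑ q ∈ (cl0_finite m n).toFinset, nbq q
      = ∑ q ∈ (cl0_finite m n).toFinset, (n + 1) * nb (rep q) := by
        rw [Finset.mul_sum]
        apply Finset.sum_congr rfl
        intro q hq
        rw [Finite.mem_toFinset] at hq
        conv_lhs => rw [← h2 q hq]
        rfl
    _ ≤ ∑ q ∈ (cl0_finite m n).toFinset, (n + 1 - m) * nb (rep' q) := by
        apply Finset.sum_le_sum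
        intro q hq
        rw [Finite.mem_toFinset] at hq
        exact h6 q hq
    _ = (n + 1 - m) * ∑ q ∈ ((cl0_finite m n).toFinset).image (fun q => (⟦rep' q⟧ : Cl)),
          nbq q := by
        rw [Finset.sum_image hinj, Finset.mul_sum]
        rfl
    _ ≤ _ := by
        apply Nat.mul_le_mul_left
        apply Finset.sum_le_sum_of_subset
        intro q hq
        rw [Finset.mem_image] at hq
        obtain ⟨q', hq', rfl⟩ := hq
        rw [Finite.mem_toFinset] at hq' ⊢
        exact ⟨_, h3 q' hq', rfl⟩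

lemma nk_ineq {N : Matroid ℕ} (hN : N ∈ G0 m n) : (n - m + 1) * nk N ≤ m * nb N := by
  have hE : N.E.Finite := by rw [hN.1.1]; exact finite_Iio n
  have hcard : N.E.ncard = n := by rw [hN.1.1]; simp
  have hmn : m ≤ n := by
    obtain ⟨B, hB⟩ := N.exists_isBase
    rw [← hN.1.2 B hB, ← hcard]
    exact ncard_le_ncard hB.subset_ground hE
  have h := main_ineq N✶ hE (by
    intro e he
    rw [dual_isColoop_iff_isLoop]
    exact hN.2 e he) (n - m) (by
    intro B hB
    rw [dual_isBase_iff'] at hB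
    have h1 := hN.1.2 _ hB.1
    rw [ncard_sdiff hB.2 (hE.subset hB.2), hcard] at h1
    have h2 : B.ncard ≤ n := by rw [← hcard]; exact ncard_le_ncard hB.2 hE
    omega)
  rw [dual_ground, hcard, nb_dual, ← nk_eq_nc_dual] at h
  have : n - (n - m) = m := by omega
  rwa [this] at h

end Steps


section Numeric

lemma coef_eq (m s : ℕ) (hm : 1 ≤ m) :
    ((m + s).choose m : ℚ) * (1 - m / (s + 1)) =
      ((m + s).choose m : ℚ) - ((m + s).choose (m - 1) : ℚ) := by
  obtain ⟨k, rfl⟩ : ∃ k, m = k + 1 := ⟨m - 1, by omega⟩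
  have h := Nat.choose_succ_right_eq (k + 1 + s) k
  have h2 : k + 1 + s - k = s + 1 := by omega
  rw [h2] at h
  have h3 : ((k + 1 + s).choose (k + 1) : ℚ) * (k + 1) = ((k + 1 + s).choose k : ℚ) * (s + 1) := by
    exact_mod_cast h
  rw [Nat.add_sub_cancel]
  have h4 : (s + 1 : ℚ) ≠ 0 := by positivity
  push_cast
  field_simp
  linear_combination -h3

lemma P_eq (m r : ℕ) (hm : 1 ≤ m) :
    ∑ s ∈ Finset.range (r + 1), (((m + s).choose m : ℚ) - ((m + s).choose (m - 1) : ℚ)) =
      1 + ((m + r + 1).choose (m + 1) : ℚ) - ((m + r + 1).choose m : ℚ) := by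
  obtain ⟨k, rfl⟩ : ∃ k, m = k + 1 := ⟨m - 1, by omega⟩
  induction r with
  | zero =>
    simp
  | succ r ih =>
    rw [Finset.sum_range_succ, ih]
    have e1 : ((k + 1 + (r + 1) + 1).choose (k + 1 + 1) : ℚ) =
        ((k + 1 + (r + 1)).choose (k + 1) : ℚ) + ((k + 1 + (r + 1)).choose (k + 1 + 1) : ℚ) := by
      exact_mod_cast Nat.choose_succ_succ (k + 1 + (r + 1)) (k + 1)
    have e2 : ((k + 1 + (r + 1) + 1).choose (k + 1) : ℚ) =
        ((k + 1 + (r + 1)).choose k : ℚ) + ((k + 1 + (r + 1)).choose (k + 1) : ℚ) := by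
      exact_mod_cast Nat.choose_succ_succ (k + 1 + (r + 1)) k
    rw [e1, e2, Nat.add_sub_cancel]
    have e3 : k + 1 + r + 1 = k + 1 + (r + 1) := by ring
    rw [e3]
    ring

lemma P_neg (m r : ℕ) (hr : r < m) :
    1 + ((m + r + 1).choose (m + 1) : ℚ) - ((m + r + 1).choose m : ℚ) ≤ 0 := by
  have h := Nat.choose_succ_right_eq (m + r + 1) m
  have h2 : m + r + 1 - m = r + 1 := by omega
  rw [h2] at h
  have hpos : 0 < (m + r + 1).choose m := Nat.choose_pos (by omega)
  have h3 : (m + r + 1).choose (m + 1) < (m + r + 1).choose m := by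
    by_contra hc
    push Not at hc
    have h4 : (m + r + 1).choose m * (m + 1) ≤ (m + r + 1).choose (m + 1) * (m + 1) :=
      Nat.mul_le_mul_right _ hc
    rw [h] at h4
    have h5 : m + 1 ≤ r + 1 := Nat.le_of_mul_le_mul_left h4 hpos
    omega
  have h4 : ((m + r + 1).choose (m + 1) : ℚ) + 1 ≤ ((m + r + 1).choose m : ℚ) := by
    exact_mod_cast h3
  linarith

lemma P_m (m : ℕ) :
    1 + ((m + m + 1).choose (m + 1) : ℚ) - ((m + m + 1).choose m : ℚ) = 1 := by
  have : (m + m + 1).choose (m + 1) = (m + m + 1).choose m :=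
    Nat.choose_symm_of_eq_add (by ring)
  rw [this]; ring

lemma numeric (m : ℕ) (hm : 1 ≤ m) (a k : ℕ → ℚ) (ha0 : 0 < a 0)
    (hgrow : ∀ s : ℕ, ((m : ℚ) + s + 1) * a s ≤ (s + 1) * a (s + 1))
    (hk : ∀ s : ℕ, ((s : ℚ) + 1) * k s ≤ m * a s) (r : ℕ) (hr : m ≤ r) :
    0 < ∑ s ∈ Finset.range (r + 1), (a s - k s) := by
  set c : ℕ → ℚ := fun s => ((m + s).choose m : ℚ) with hc
  have hcpos : ∀ s, 0 < c s := fun s => by
    simp only [hc]; exact_mod_cast Nat.choose_pos (by omega)
  set y : ℕ → ℚ := fun s => a s / c s with hy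
  have hay : ∀ s, a s = y s * c s := fun s => by
    simp only [hy]; field_simp [(hcpos s).ne']
  have hcs : ∀ s : ℕ, c (s + 1) * (s + 1) = c s * (m + s + 1) := by
    intro s
    have h1 := Nat.add_one_mul_choose_eq (m + s) s
    have h2 : (m + s).choose s = (m + s).choose m := Nat.choose_symm_of_eq_add (by ring)
    have h3 : (m + s + 1).choose (s + 1) = (m + (s + 1)).choose m :=
      Nat.choose_symm_of_eq_add (by ring)
    rw [h2, h3] at h1
    simp only [hc]
    have h4 : (m + s + 1 : ℚ) * ((m + s).choose m : ℚ) =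
        ((m + (s + 1)).choose m : ℚ) * (s + 1 : ℚ) := by exact_mod_cast h1
    linear_combination -h4
  have hmono : ∀ s, y s ≤ y (s + 1) := by
    intro s
    have h1 := hgrow s
    rw [hay s, hay (s + 1)] at h1
    have h2 : (y s) * (c s * (m + s + 1)) ≤ y (s + 1) * (c s * (m + s + 1)) := by
      rw [← hcs s]
      calc y s * (c (s + 1) * (s + 1)) = (m + s + 1) * (y s * c s) := by rw [hcs s]; ring
        _ ≤ (s + 1) * (y (s + 1) * c (s + 1)) := h1
        _ = _ := by ring
    have h3 : 0 < c s * (m + s + 1) := mul_pos (hcpos s) (by positivity)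
    exact le_of_mul_le_mul_right h2 h3
  have hy0 : 0 < y 0 := div_pos ha0 (hcpos 0)
  have hypos : ∀ s, 0 < y s := by
    intro s
    induction s with
    | zero => exact hy0
    | succ s ih => exact lt_of_lt_of_le ih (hmono s)
  set d : ℕ → ℚ := fun s => ((m + s).choose m : ℚ) - ((m + s).choose (m - 1) : ℚ) with hd
  have hterm : ∀ s, y s * d s ≤ a s - k s := by
    intro s
    have h1 : k s ≤ m * a s / (s + 1) := by
      rw [le_div_iff₀ (by positivity)]
      linarith [hk s]
    have h2 : y s * d s = a s - m * a s / (s + 1) := by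
      simp only [hd]
      rw [← coef_eq m s hm, hay s]
      simp only [hc]
      ring
    rw [h2]; linarith
  have hT : ∀ r, r ≤ m → y r * (1 + ((m + r + 1).choose (m + 1) : ℚ) -
      ((m + r + 1).choose m : ℚ)) ≤ ∑ s ∈ Finset.range (r + 1), y s * d s := by
    intro r
    induction r with
    | zero =>
      intro _
      rw [← P_eq m 0 hm]
      simp [hd]
    | succ r ih =>
      intro hr
      rw [Finset.sum_range_succ, ← P_eq m (r + 1) hm, Finset.sum_range_succ, P_eq m r hm, mul_add]
      apply add_le_add _ le_rfl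
      refine le_trans ?_ (ih (by omega))
      have h1 := P_neg m r (by omega)
      nlinarith [hmono r]
  have hTm : 0 < ∑ s ∈ Finset.range (m + 1), y s * d s := by
    have := hT m le_rfl
    rw [P_m, mul_one] at this
    exact lt_of_lt_of_le (hypos m) this
  have hdnn : ∀ s, m ≤ s → 0 ≤ y s * d s := by
    intro s hs
    apply mul_nonneg (hypos s).le
    simp only [hd]
    rw [← coef_eq m s hm]
    apply mul_nonneg (hcpos s).le
    rw [sub_nonneg, div_le_one (by positivity)]
    have : (m : ℚ) ≤ s := by exact_mod_cast hs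
    linarith
  calc 0 < ∑ s ∈ Finset.range (m + 1), y s * d s := hTm
    _ ≤ ∑ s ∈ Finset.range (r + 1), y s * d s := by
        apply Finset.sum_le_sum_of_subset_of_nonneg
        · exact Finset.range_mono (by omega)
        · intro s _ hs
          apply hdnn
          simp only [Finset.mem_range] at hs
          omega
    _ ≤ _ := Finset.sum_le_sum (fun s _ => hterm s)

end Numeric

section Assembly

noncomputable def A (m j : ℕ) : ℕ := ∑ q ∈ (cl0_finite m j).toFinset, nbq q
noncomputable def K (m j : ℕ) : ℕ := ∑ q ∈ (cl0_finite m j).toFinset, nkq q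
noncomputable def D (m j : ℕ) : ℤ := ∑ q ∈ (cl_finite m j).toFinset, ((nbq q : ℤ) - nkq q)

lemma D_succ (m j : ℕ) : D m (j + 1) = ((A m (j + 1) : ℤ) - K m (j + 1)) + D m j := by
  unfold D
  rw [sum_step (m := m) (n := j) (fun q => (nbq q : ℤ) - nkq q)]
  · rw [Finset.sum_sub_distrib]
    unfold A K
    push_cast
    ring
  · intro N hN
    show ((nb _ : ℕ) : ℤ) - (nk _ : ℕ) = (nb _ : ℕ) - (nk _ : ℕ)
    rw [nb_congr _ _ (addLoop_isBase hN), nk_congr _ _ (addLoop_isBase hN)]

lemma D_zero (m : ℕ) : D m 0 = (A m 0 : ℤ) - K m 0 := by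
  have h : (cl_finite m 0).toFinset = (cl0_finite m 0).toFinset := by
    ext q
    rw [Finite.mem_toFinset, Finite.mem_toFinset]
    constructor
    · rintro ⟨N, hN, rfl⟩
      refine ⟨N, ⟨hN, ?_⟩, rfl⟩
      intro e he
      rw [hN.1] at he
      simp at he
    · rintro ⟨N, hN, rfl⟩
      exact ⟨N, hN.1, rfl⟩
  unfold D A K
  rw [h, Finset.sum_sub_distrib]
  push_cast
  ring

lemma rank_le {m n : ℕ} {N : Matroid ℕ} (hN : N ∈ G m n) : m ≤ n := by
  have hE : N.E.Finite := by rw [hN.1]; exact finite_Iio n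
  have hcard : N.E.ncard = n := by rw [hN.1]; simp
  obtain ⟨B, hB⟩ := N.exists_isBase
  rw [← hN.2 B hB, ← hcard]
  exact ncard_le_ncard hB.subset_ground hE

lemma cl0_empty (m j : ℕ) (h : j < m) : (cl0_finite m j).toFinset = ∅ := by
  rw [Finite.toFinset_eq_empty, eq_empty_iff_forall_notMem]
  rintro q ⟨N, hN, _⟩
  have := rank_le hN.1
  omega

lemma A_zero (m j : ℕ) (h : j < m) : A m j = 0 := by unfold A; rw [cl0_empty m j h]; simp
lemma K_zero (m j : ℕ) (h : j < m) : K m j = 0 := by unfold K; rw [cl0_empty m j h]; simp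

lemma D_lt (m j : ℕ) (h : j < m) : D m j = 0 := by
  induction j with
  | zero => rw [D_zero, A_zero m 0 h, K_zero m 0 h]; simp
  | succ j ih => rw [D_succ, A_zero m _ h, K_zero m _ h, ih (by omega)]; simp

lemma D_m (m : ℕ) : D m m = (A m m : ℤ) - K m m := by
  cases m with
  | zero => exact D_zero 0
  | succ m => rw [D_succ, D_lt (m + 1) m (by omega)]; simp

lemma D_add (m r : ℕ) : D m (m + r) =
    ∑ s ∈ Finset.range (r + 1), ((A m (m + s) : ℤ) - K m (m + s)) := by
  induction r with
  | zero => simp [D_m]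
  | succ r ih => rw [Finset.sum_range_succ, ← ih, ← add_assoc, D_succ]; ring

lemma A_pos (m : ℕ) : 0 < A m m := by
  have hN : freeOn (Iio m) ∈ G0 m m := by
    refine ⟨⟨rfl, ?_⟩, ?_⟩
    · intro B hB
      rw [freeOn_isBase_iff] at hB
      rw [hB]; simp
    · intro e he
      rw [← singleton_not_indep he, not_not, freeOn_indep_iff]
      exact singleton_subset_iff.2 he
  have hmem : (⟦freeOn (Iio m)⟧ : Cl) ∈ (cl0_finite m m).toFinset := by
    rw [Finite.mem_toFinset]; exact ⟨_, hN, rfl⟩
  have h1 : 0 < nbq ⟦freeOn (Iio m)⟧ := by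
    show 0 < nb _
    unfold nb
    rw [ncard_pos (bases_finite _ (finite_Iio m))]
    exact (freeOn (Iio m)).exists_isBase
  exact lt_of_lt_of_le h1 (Finset.single_le_sum (f := nbq) (fun _ _ => Nat.zero_le _) hmem)

lemma K_ineq (m j : ℕ) : (j - m + 1) * K m j ≤ m * A m j := by
  unfold A K
  rw [Finset.mul_sum, Finset.mul_sum]
  apply Finset.sum_le_sum
  intro q hq
  rw [Finite.mem_toFinset] at hq
  obtain ⟨N, hN, rfl⟩ := hq
  exact nk_ineq hN

lemma D_pos (m r : ℕ) (h : m ≤ r) : 0 < D m (m + r) := by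
  rcases Nat.eq_zero_or_pos m with rfl | hm
  · rw [D_add]
    have hK : ∀ s, K 0 (0 + s) = 0 := by
      intro s
      have h1 := K_ineq 0 (0 + s)
      rw [zero_mul] at h1
      have h2 : (0 + s - 0 + 1) * K 0 (0 + s) = 0 := Nat.le_zero.1 h1
      rcases Nat.mul_eq_zero.1 h2 with h3 | h3
      · omega
      · exact h3
    have hA := A_pos 0
    calc (0 : ℤ) < (A 0 0 : ℤ) := by exact_mod_cast hA
      _ = (A 0 (0 + 0) : ℤ) - K 0 (0 + 0) := by rw [hK 0]; simp
      _ ≤ _ := by
        apply Finset.single_le_sum (f := fun s => (A 0 (0 + s) : ℤ) - K 0 (0 + s))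
        · intro s _
          simp only [hK s]
          simp
        · simp
  · have key := numeric m hm (fun s => (A m (m + s) : ℚ)) (fun s => (K m (m + s) : ℚ))
      (by simpa using A_pos m) (by
        intro s
        have h1 := growth (m := m) (n := m + s) hm
        have h2 : m + s + 1 - m = s + 1 := by omega
        rw [h2] at h1
        have h3 : (m + s + 1) * A m (m + s) ≤ (s + 1) * A m (m + s + 1) := h1
        have h4 : ((m : ℚ) + s + 1) * (A m (m + s) : ℚ) ≤
            ((s : ℚ) + 1) * (A m (m + s + 1) : ℚ) := by exact_mod_cast h3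
        rw [← add_assoc]
        exact h4) (by
        intro s
        have h1 := K_ineq m (m + s)
        have h2 : m + s - m + 1 = s + 1 := by omega
        rw [h2] at h1
        exact_mod_cast h1) r h
    rw [D_add]
    exact_mod_cast key

end Assembly


section Transfer

variable {n : ℕ}

lemma mapEquiv_eRank {β : Type*} (M : Matroid α) (e : α ≃ β) : (M.mapEquiv e).eRank = M.eRank := by
  rw [mapEquiv_eq_map, eRank_map]

/-- transfer to the dual on `ℕ` -/
noncomputable def tau (M : Matroid (Fin n)) : Matroid ℕ := (M.mapEmbedding Fin.valEmbedding)✶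

lemma range_val : range (Fin.valEmbedding : Fin n ↪ ℕ) = Iio n := by
  ext z
  constructor
  · rintro ⟨y, rfl⟩
    exact y.2
  · intro h
    exact ⟨⟨z, h⟩, rfl⟩

lemma tau_mem (M : Matroid (Fin n)) (r : ℕ) (hE : M.E = univ) (hr : M.eRank = r) :
    tau M ∈ G (n - r) n := by
  have hE' : (tau M).E = Iio n := by
    show (M.mapEmbedding Fin.valEmbedding).E = _
    rw [mapEmbedding_ground_eq, hE, image_univ, range_val]
  refine ⟨hE', ?_⟩
  intro B hB
  have h1 := dual_isBase_iff'.1 hB
  have hE2 : (M.mapEmbedding Fin.valEmbedding).E = Iio n := hE'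
  rw [hE2] at h1
  have h2 : (Iio n \ B).encard = r := by
    rw [h1.1.encard_eq_eRank, Matroid.mapEmbedding, eRank_map, hr]
  have hfin : (Iio n).Finite := finite_Iio n
  have h3 : (Iio n \ B).ncard = r := by
    rw [ncard_def, h2]; rfl
  rw [ncard_sdiff h1.2 (hfin.subset h1.2)] at h3
  have h4 : B.ncard ≤ n := by
    have := ncard_le_ncard h1.2 hfin
    simpa using this
  have h5 : (Iio n).ncard = n := by simp
  omega

lemma nb_map_emb {β : Type*} (M : Matroid α) (f : α ↪ β) : nb (M.mapEmbedding f) = nb M := by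
  unfold nb
  symm
  apply ncard_congr (fun B _ => f '' B)
  · intro B hB
    exact IsBase.mapEmbedding hB f
  · intro B B' _ _ h
    exact f.injective.image_injective h
  · intro B hB
    have hB' := mapEmbedding_isBase_iff.1 hB
    exact ⟨f ⁻¹' B, hB'.1, image_preimage_eq_of_subset hB'.2⟩

lemma circuit_map_emb {β : Type*} (M : Matroid α) (f : α ↪ β) (C : Set β) :
    (M.mapEmbedding f).IsCircuit C ↔ M.IsCircuit (f ⁻¹' C) ∧ C ⊆ range f := by
  have hdep : ∀ D : Set β, (M.mapEmbedding f).Dep D ↔ M.Dep (f ⁻¹' D) ∧ D ⊆ range f := by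
    intro D
    unfold Dep
    rw [mapEmbedding_indep_iff, mapEmbedding_ground_eq]
    constructor
    · rintro ⟨h1, h2⟩
      have h3 : D ⊆ range f := h2.trans (image_subset_range _ _)
      refine ⟨⟨fun h => h1 ⟨h, h3⟩, ?_⟩, h3⟩
      intro z hz
      obtain ⟨w, hw, hw2⟩ := h2 hz
      rwa [← f.injective hw2]
    · rintro ⟨⟨h1, h2⟩, h3⟩
      refine ⟨fun h => h1 h.1, ?_⟩
      intro z hz
      obtain ⟨w, rfl⟩ := h3 hz
      exact ⟨w, h2 hz, rfl⟩
  rw [isCircuit_iff, isCircuit_iff, hdep]
  constructor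
  · rintro ⟨⟨h1, h2⟩, h3⟩
    refine ⟨⟨h1, ?_⟩, h2⟩
    intro D hD hDC
    have h4 := @h3 (f '' D) (by
      rw [hdep, preimage_image_eq _ f.injective]
      exact ⟨hD, image_subset_range _ _⟩) (by
      rintro _ ⟨z, hz, rfl⟩
      exact hDC hz)
    rw [← h4, preimage_image_eq _ f.injective]
  · rintro ⟨⟨h1, h2⟩, h3⟩
    refine ⟨⟨h1, h3⟩, ?_⟩
    intro D hD hDC
    rw [hdep] at hD
    have h4 := h2 hD.1 (preimage_mono hDC)
    rw [← image_preimage_eq_of_subset hD.2, h4, image_preimage_eq_of_subset h3]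

lemma nc_map_emb {β : Type*} (M : Matroid α) (f : α ↪ β) : nc (M.mapEmbedding f) = nc M := by
  unfold nc
  symm
  apply ncard_congr (fun B _ => f '' B)
  · intro B hB
    show (M.mapEmbedding f).IsCircuit _
    rw [circuit_map_emb, preimage_image_eq _ f.injective]
    exact ⟨hB, image_subset_range _ _⟩
  · intro B B' _ _ h
    exact f.injective.image_injective h
  · intro B hB
    have hB' := (circuit_map_emb M f B).1 hB
    exact ⟨f ⁻¹' B, hB'.1, image_preimage_eq_of_subset hB'.2⟩

lemma nb_tau (M : Matroid (Fin n)) : nb (tau M) = nb M := by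
  rw [tau, nb_dual, nb_map_emb]

lemma nk_tau (M : Matroid (Fin n)) : nk (tau M) = nc M := by
  rw [tau, nk_eq_nc_dual, dual_dual, nc_map_emb]

lemma tau_iso_of (M N : Matroid (Fin n)) (e : Fin n ≃ Fin n) (h : M.mapEquiv e = N) :
    Iso (tau M) (tau N) := by
  set e' : ℕ ≃ ℕ := Equiv.Perm.viaEmbedding e Fin.valEmbedding with he'
  have hap : ∀ x : Fin n, e' (Fin.valEmbedding x) = Fin.valEmbedding (e x) :=
    fun x => Equiv.Perm.viaEmbedding_apply e Fin.valEmbedding x
  refine ⟨e', ?_⟩
  unfold tau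
  rw [← mapEquiv_dual, ← h]
  congr 1
  have hsymm : ∀ x : Fin n, e'.symm (Fin.valEmbedding x) = Fin.valEmbedding (e.symm x) := by
    intro x
    rw [Equiv.symm_apply_eq, hap, Equiv.apply_symm_apply]
  apply ext_indep
  · rw [mapEquiv_ground_eq, mapEmbedding_ground_eq, mapEmbedding_ground_eq, mapEquiv_ground_eq,
      ← image_comp, ← image_comp]
    apply image_congr
    intro x _
    exact hap x
  · intro I _
    rw [mapEquiv_indep_iff, mapEmbedding_indep_iff, mapEmbedding_indep_iff, mapEquiv_indep_iff]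
    have h1 : (Fin.valEmbedding : Fin n ↪ ℕ) ⁻¹' (e'.symm '' I) =
        e.symm '' ((Fin.valEmbedding : Fin n ↪ ℕ) ⁻¹' I) := by
      ext x
      simp only [mem_preimage, mem_image]
      constructor
      · rintro ⟨z, hz, hz2⟩
        rw [Equiv.symm_apply_eq, hap] at hz2
        exact ⟨e x, by rw [← hz2]; exact hz, by simp⟩
      · rintro ⟨z, hz, rfl⟩
        exact ⟨_, hz, hsymm z⟩
    rw [h1]
    refine and_congr_right (fun _ => ?_)
    constructor
    · intro h z hz
      obtain ⟨x, hx⟩ := h ⟨z, hz, rfl⟩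
      refine ⟨e x, ?_⟩
      rw [← hap, hx, Equiv.apply_symm_apply]
    · rintro h _ ⟨z, hz, rfl⟩
      obtain ⟨x, hx⟩ := h hz
      exact ⟨e.symm x, by rw [← hsymm, hx]⟩

lemma iso_of_tau (M N : Matroid (Fin n)) (hM : M.E = univ) (hN : N.E = univ)
    (h : Iso (tau M) (tau N)) : ∃ e : Fin n ≃ Fin n, M.mapEquiv e = N := by
  obtain ⟨e, he⟩ := h
  have h1 : (M.mapEmbedding Fin.valEmbedding).mapEquiv e = N.mapEmbedding Fin.valEmbedding := by
    have h2 := congrArg (fun X => X✶) he
    simp only [tau, mapEquiv_dual, dual_dual] at h2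
    exact h2
  have hE : e '' Iio n = Iio n := by
    have h2 := congrArg (fun X => X.E) h1
    simp only [mapEquiv_ground_eq, mapEmbedding_ground_eq, hM, hN, image_univ, range_val] at h2
    exact h2
  have hlt : ∀ x, x < n → e x < n := by
    intro x hx
    have : e x ∈ e '' Iio n := ⟨x, hx, rfl⟩
    rwa [hE] at this
  have hlt2 : ∀ x, x < n → e.symm x < n := by
    intro x hx
    have : x ∈ e '' Iio n := by rw [hE]; exact hx
    obtain ⟨y, hy, rfl⟩ := this
    simpa using hy
  let e' : Fin n ≃ Fin n :=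
    { toFun := fun x => ⟨e x, hlt x x.2⟩
      invFun := fun x => ⟨e.symm x, hlt2 x x.2⟩
      left_inv := fun x => by simp
      right_inv := fun x => by simp }
  refine ⟨e', ?_⟩
  apply ext_indep
  · rw [mapEquiv_ground_eq, hM, hN]
    exact image_univ_of_surjective e'.surjective
  · intro I _
    rw [mapEquiv_indep_iff]
    have h2 : ∀ J : Set (Fin n), N.Indep J ↔
        (N.mapEmbedding Fin.valEmbedding).Indep (Fin.valEmbedding '' J) := by
      intro J
      rw [mapEmbedding_indep_iff, preimage_image_eq _ Fin.valEmbedding.injective]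
      exact ⟨fun h => ⟨h, image_subset_range _ _⟩, fun h => h.1⟩
    rw [h2 I, ← h1, mapEquiv_indep_iff, mapEmbedding_indep_iff]
    have h3 : (Fin.valEmbedding : Fin n ↪ ℕ) ⁻¹' (e.symm '' (Fin.valEmbedding '' I)) =
        e'.symm '' I := by
      ext x
      simp only [mem_preimage, mem_image, exists_exists_and_eq_and]
      constructor
      · rintro ⟨z, hz, hz2⟩
        refine ⟨z, hz, ?_⟩
        apply Fin.ext
        exact hz2
      · rintro ⟨z, hz, rfl⟩
        exact ⟨z, hz, rfl⟩
    rw [h3]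
    refine ⟨fun h => ⟨h, ?_⟩, fun h => h.1⟩
    rintro _ ⟨_, ⟨z, _, rfl⟩, rfl⟩
    exact ⟨⟨e.symm z, hlt2 z z.2⟩, rfl⟩

lemma tau_surj {m : ℕ} (N : Matroid ℕ) (hN : N ∈ G m n) :
    ∃ M : Matroid (Fin n), M.E = univ ∧ M.eRank = ((n - m : ℕ) : ℕ∞) ∧ tau M = N := by
  have hmn := rank_le hN
  have hran : N✶.E ⊆ range (Fin.valEmbedding : Fin n ↪ ℕ) := by
    rw [range_val, dual_ground, hN.1]
  have hmap : ((N✶).comap (Fin.valEmbedding : Fin n ↪ ℕ)).mapEmbedding
      (Fin.valEmbedding : Fin n ↪ ℕ) = N✶ := by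
    unfold Matroid.mapEmbedding
    exact map_comap hran Fin.valEmbedding.injective.injOn
  refine ⟨(N✶).comap (Fin.valEmbedding : Fin n ↪ ℕ), ?_, ?_, ?_⟩
  · rw [comap_ground_eq, dual_ground, hN.1]
    ext x
    simp
  · have h1 : ((N✶).comap (Fin.valEmbedding : Fin n ↪ ℕ)).eRank = N✶.eRank := by
      conv_rhs => rw [← hmap, Matroid.mapEmbedding, eRank_map]
    rw [h1]
    obtain ⟨B, hB⟩ := N✶.exists_isBase
    rw [← hB.encard_eq_eRank]
    have h2 := dual_isBase_iff'.1 hB
    rw [hN.1] at h2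
    have hfin : B.Finite := (finite_Iio n).subset h2.2
    have h3 := hN.2 _ h2.1
    rw [ncard_sdiff h2.2 hfin] at h3
    have h4 : B.ncard ≤ n := by
      have := ncard_le_ncard h2.2 (finite_Iio n)
      simpa using this
    have h5 : (Iio n).ncard = n := by simp
    rw [← hfin.cast_ncard_eq]
    congr 1
    omega
  · unfold tau
    rw [hmap, dual_dual]

/-- main theorem, in the form used by the hand-in -/
theorem main (n r : ℕ) (hrn : r ≤ n) (h2 : n ≤ 2 * r) (S : Finset (Matroid (Fin n)))
    (hS1 : ∀ M ∈ S, M.E = univ ∧ M.eRank = r)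
    (hS2 : ∀ M : Matroid (Fin n), M.E = univ → M.eRank = r →
      ∃! N, N ∈ S ∧ ∃ e : Fin n ≃ Fin n, M.mapEquiv e = N) :
    ∑ M ∈ S, nc M < ∑ M ∈ S, nb M := by
  classical
  have hinj : InjOn (fun M : Matroid (Fin n) => (⟦tau M⟧ : Cl)) (S : Set (Matroid (Fin n))) := by
    intro M hM N hN h
    rw [Finset.mem_coe] at hM hN
    have h3 := iso_of_tau M N (hS1 M hM).1 (hS1 N hN).1 (quot_eq.1 h)
    obtain ⟨P, _, hP⟩ := hS2 M (hS1 M hM).1 (hS1 M hM).2
    have h4 := hP M ⟨hM, Equiv.refl _, mapEquiv_refl M⟩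
    have h5 := hP N ⟨hN, h3⟩
    rw [h4, h5]
  have himg : S.image (fun M : Matroid (Fin n) => (⟦tau M⟧ : Cl)) =
      (cl_finite (n - r) n).toFinset := by
    ext q
    rw [Finset.mem_image, Finite.mem_toFinset]
    constructor
    · rintro ⟨M, hM, rfl⟩
      exact ⟨tau M, tau_mem M r (hS1 M hM).1 (hS1 M hM).2, rfl⟩
    · rintro ⟨N, hN, rfl⟩
      obtain ⟨M, hM1, hM2, hM3⟩ := tau_surj N hN
      have h3 : n - (n - r) = r := by omega
      rw [h3] at hM2
      obtain ⟨P, ⟨hPS, e, he⟩, _⟩ := hS2 M hM1 hM2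
      refine ⟨P, hPS, ?_⟩
      have h4 := tau_iso_of M P e he
      rw [hM3] at h4
      exact (quot_eq.2 h4).symm
  have key := D_pos (n - r) r (by omega)
  have h3 : n - r + r = n := by omega
  rw [h3] at key
  unfold D at key
  rw [← himg, Finset.sum_image hinj] at key
  have h4 : ∀ M ∈ S, ((nbq (⟦tau M⟧ : Cl) : ℤ) - nkq (⟦tau M⟧ : Cl)) = (nb M : ℤ) - nc M := by
    intro M _
    show ((nb (tau M) : ℕ) : ℤ) - (nk (tau M) : ℕ) = _
    rw [nb_tau, nk_tau]
  rw [Finset.sum_congr rfl h4, Finset.sum_sub_distrib] at key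
  have h5 : ((∑ M ∈ S, nc M : ℕ) : ℤ) < ((∑ M ∈ S, nb M : ℕ) : ℤ) := by
    push_cast
    linarith
  exact_mod_cast h5

end Transfer

end Pool.Agent.Helper982.BC
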