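import Mathlib

set_option autoImplicit false

open Matrix Finset

namespace Pool.Agent.Helper982.PairMinors

section PM
variable {ι : Type*} [Fintype ι] [DecidableEq ι] {R : Type*} [CommRing R]

/-- principal minor on a finset -/
noncomputable def pm (M : Matrix ι ι R) (s : Finset ι) : R :=
  (M.submatrix (fun i : s => (i : ι)) (fun i : s => (i : ι))).det

omit [Fintype ι] [DecidableEq ι] in
theorem det_inst (I1 I2 : Fintype ι) (D1 D2 : DecidableEq ι) (B : Matrix ι ι R) :
    @det ι D1 I1 R _ B = @det ι D2 I2 R _ B := by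
  have h1 : I1 = I2 := Subsingleton.elim _ _
  have h2 : D1 = D2 := Subsingleton.elim _ _
  rw [h1, h2]

omit [Fintype ι] [DecidableEq ι] in
theorem prod_inst (I1 I2 : Fintype ι) (f : ι → R) :
    @Finset.prod ι R _ (@Finset.univ ι I1) f = @Finset.prod ι R _ (@Finset.univ ι I2) f := by
  have h1 : I1 = I2 := Subsingleton.elim _ _
  rw [h1]

theorem det_piece (M : Matrix ι ι R) (x : ι → R) (s : Finset ι) :
    (Matrix.of (fun i j => if i ∈ s then M i j else (diagonal x) i j)).det = pm M s * ∏ i ∈ sᶜ, x i := by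
  rw [Matrix.twoBlockTriangular_det _ (fun i => i ∈ s)]
  · have e1 : (toSquareBlockProp (Matrix.of (fun i j => if i ∈ s then M i j else (diagonal x) i j)) (fun i => i ∈ s)) =
        M.submatrix (fun i : {i // i ∈ s} => (i : ι)) (fun i : {i // i ∈ s} => (i : ι)) := by
      ext i j
      simp [Matrix.toSquareBlockProp, i.2]
    have e2 : (toSquareBlockProp (Matrix.of (fun i j => if i ∈ s then M i j else (diagonal x) i j)) (fun i => i ∉ s)) =
          diagonal (fun i : {i // i ∉ s} => x i) := by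
      ext i j
      by_cases hij : i = j
      · subst hij; simp [Matrix.toSquareBlockProp, i.2]
      · have : (i : ι) ≠ j := fun h => hij (Subtype.ext h)
        simp [Matrix.toSquareBlockProp, i.2, hij, this]
    rw [e1, e2, det_diagonal]
    have e3 : ∏ i ∈ sᶜ, x i = ∏ a : {i // i ∉ s}, x a :=
      Finset.prod_subtype (p := fun i => i ∉ s) (sᶜ) (by intro i; simp) (fun i => x i)
    rw [e3]
    exact congrArg₂ (fun a b => a * b) (det_inst _ _ _ _ _) (prod_inst _ _ _)
  · intro i hi j hj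
    have : i ≠ j := by rintro rfl; exact hi hj
    simp [hi, this]

theorem det_add_diagonal (M : Matrix ι ι R) (x : ι → R) :
    (M + diagonal x).det = ∑ s : Finset ι, pm M s * ∏ i ∈ sᶜ, x i := by
  have h2 := (detRowAlternating (R := R) (n := ι)).toMultilinearMap.map_add_univ (fun i => M i) (fun i => (diagonal x) i)
  have h1 : (M + diagonal x).det = ∑ s : Finset ι, (Matrix.of (fun i j => if i ∈ s then M i j else (diagonal x) i j)).det := by
    refine Eq.trans ?_ (h2.trans ?_)
    · rfl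
    · refine Finset.sum_congr rfl fun s _ => ?_
      have : (s.piecewise (fun i => M i) (fun i => (diagonal x) i)) =
        Matrix.of (fun i j => if i ∈ s then M i j else (diagonal x) i j) := by
        ext i j
        by_cases h : i ∈ s <;> simp [Finset.piecewise, h]
      rw [this]
      rfl
  rw [h1]
  exact Finset.sum_congr rfl fun s _ => det_piece M x s

theorem det_add_one (M : Matrix ι ι R) : (M + 1).det = ∑ s : Finset ι, pm M s := by
  have := det_add_diagonal M (fun _ => (1:R))
  rw [diagonal_one] at this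
  rw [this]
  simp

theorem pm_row_scale (M : Matrix ι ι R) (x : ι → R) (s : Finset ι) :
    pm (diagonal x * M) s = (∏ i ∈ s, x i) * pm M s := by
  unfold pm
  have : (diagonal x * M).submatrix (fun i : s => (i : ι)) (fun i : s => (i : ι)) =
      Matrix.of (fun (i j : s) => (fun i : s => x i) i * (M.submatrix (fun i : s => (i : ι)) (fun i : s => (i : ι))) i j) := by
    ext i j; simp [diagonal_mul]
  rw [this, det_mul_column, Finset.prod_coe_sort s x]

omit [Fintype ι] in
theorem pm_map {S : Type*} [CommRing S] (f : R →+* S) (M : Matrix ι ι R) (s : Finset ι) :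
    pm (M.map f) s = f (pm M s) := by
  unfold pm
  rw [f.map_det]
  rfl

end PM

section Pair
variable {ι : Type*} [Fintype ι] [DecidableEq ι] {R : Type*} [CommRing R]

theorem det_one_add_sq (A : Matrix ι ι R) :
    (A * A + 1).det = ∑ s : Finset (ι ⊕ ι), pm (fromBlocks 0 (-A) A 0) s := by
  rw [← det_add_one]
  have : (fromBlocks 0 (-A) A 0 : Matrix (ι ⊕ ι) (ι ⊕ ι) R) + 1 = fromBlocks 1 (-A) A 1 := by
    rw [← fromBlocks_one, fromBlocks_add]; simp
  rw [this, det_fromBlocks_one₁₁]
  congr 1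
  rw [Matrix.mul_neg, sub_neg_eq_add, add_comm]

/-- the pair term -/
noncomputable def N (A : Matrix ι ι R) (s : Finset (ι ⊕ ι)) : R := pm (fromBlocks 0 (-A) A 0) s

theorem N_scale (A : Matrix ι ι R) (x : ι → R) (s : Finset (ι ⊕ ι)) :
    N (diagonal x * A) s = (∏ i ∈ s, Sum.elim x x i) * N A s := by
  unfold N
  rw [← pm_row_scale]
  congr 1
  rw [← fromBlocks_diagonal, fromBlocks_multiply]
  simp

theorem det_J (k : ℕ) : (fromBlocks 0 (-1) 1 0 : Matrix (Fin k ⊕ Fin k) (Fin k ⊕ Fin k) R).det = 1 := by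
  have h1 : (fromBlocks 1 1 0 1 : Matrix (Fin k ⊕ Fin k) (Fin k ⊕ Fin k) R) * fromBlocks 0 (-1) 1 0
      = fromBlocks 1 (-1) 1 0 := by
    rw [fromBlocks_multiply]; simp
  have h2 := congrArg Matrix.det h1
  rw [det_mul, det_fromBlocks_one₁₁, det_fromBlocks_one₁₁] at h2
  simpa using h2

theorem det_cross {k : ℕ} (B C : Matrix (Fin k) (Fin k) R) :
    (fromBlocks 0 (-B) C 0 : Matrix (Fin k ⊕ Fin k) (Fin k ⊕ Fin k) R).det = B.det * C.det := by
  have h1 : (fromBlocks B 0 0 C : Matrix (Fin k ⊕ Fin k) (Fin k ⊕ Fin k) R) * fromBlocks 0 (-1) 1 0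
      = fromBlocks 0 (-B) C 0 := by
    rw [fromBlocks_multiply]; simp
  rw [← h1, det_mul, det_J, mul_one, det_fromBlocks_zero₂₁]

omit [Fintype ι] in
theorem N_eq (A : Matrix ι ι R) {k : ℕ} (α β : Fin k → ι) (hα : Function.Injective α) (hβ : Function.Injective β)
    (s : Finset (ι ⊕ ι)) (h1 : s.toLeft = univ.image α) (h2 : s.toRight = univ.image β) :
    N A s = (A.submatrix α β).det * (A.submatrix β α).det := by
  have hmem : ∀ x : Fin k ⊕ Fin k, Sum.map α β x ∈ s := by
    rintro (i | i)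
    · have : α i ∈ s.toLeft := by rw [h1]; simp
      simpa using this
    · have : β i ∈ s.toRight := by rw [h2]; simp
      simpa using this
  have hbij : Function.Bijective (fun x : Fin k ⊕ Fin k => (⟨Sum.map α β x, hmem x⟩ : s)) := by
    constructor
    · intro x y hxy
      have := congrArg Subtype.val hxy
      exact (Sum.map_injective.mpr ⟨hα, hβ⟩) this
    · rintro ⟨x | x, hx⟩
      · have : x ∈ s.toLeft := by simpa using hx
        rw [h1] at this
        obtain ⟨i, -, hi⟩ := mem_image.mp this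
        exact ⟨Sum.inl i, by simp [hi]⟩
      · have : x ∈ s.toRight := by simpa using hx
        rw [h2] at this
        obtain ⟨i, -, hi⟩ := mem_image.mp this
        exact ⟨Sum.inr i, by simp [hi]⟩
  let e := Equiv.ofBijective _ hbij
  unfold N pm
  rw [← det_submatrix_equiv_self e, ← det_cross]
  congr 1
  ext x y
  rcases x with x | x <;> rcases y with y | y <;> simp [e]

omit [Fintype ι] in
theorem N_zero (A : Matrix ι ι R) (s : Finset (ι ⊕ ι)) (h : s.toLeft.card ≠ s.toRight.card) : N A s = 0 := by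
  unfold N pm
  rw [det_apply]
  apply Finset.sum_eq_zero
  intro π _
  have key : ∃ x : s, (fromBlocks 0 (-A) A 0 : Matrix (ι ⊕ ι) (ι ⊕ ι) R) (π x) x = 0 := by
    by_contra hcon
    push Not at hcon
    have hl : ∀ x : s, (x : ι ⊕ ι).isLeft → ((π x : s) : ι ⊕ ι).isRight := by
      rintro ⟨x, hx⟩ hxl
      have := hcon ⟨x, hx⟩
      rcases x with x | x
      · rcases hp : ((π ⟨Sum.inl x, hx⟩ : s) : ι ⊕ ι) with y | y
        · rw [hp] at this; simp at this
        · simp
      · simp at hxl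
    have hr : ∀ x : s, (x : ι ⊕ ι).isRight → ((π x : s) : ι ⊕ ι).isLeft := by
      rintro ⟨x, hx⟩ hxl
      have := hcon ⟨x, hx⟩
      rcases x with x | x
      · simp at hxl
      · rcases hp : ((π ⟨Sum.inr x, hx⟩ : s) : ι ⊕ ι) with y | y
        · simp
        · rw [hp] at this; simp at this
    have c1 : (univ.filter (fun x : s => (x : ι ⊕ ι).isLeft)).card = s.toLeft.card := by
      refine Finset.card_bij' (s := univ.filter (fun x : s => (x : ι ⊕ ι).isLeft)) (t := s.toLeft)
        (fun (x : s) _ => Sum.elim id id (x : ι ⊕ ι))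
        (fun x hx => (⟨Sum.inl x, by simpa using hx⟩ : s)) ?_ ?_ ?_ ?_
      · rintro ⟨x | x, hx⟩ h
        · simpa using hx
        · simp at h
      · intro x hx; simp
      · rintro ⟨x | x, hx⟩ h
        · simp
        · simp at h
      · intro x hx; simp
    have c2 : (univ.filter (fun x : s => (x : ι ⊕ ι).isRight)).card = s.toRight.card := by
      refine Finset.card_bij' (s := univ.filter (fun x : s => (x : ι ⊕ ι).isRight)) (t := s.toRight)
        (fun (x : s) _ => Sum.elim id id (x : ι ⊕ ι))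
        (fun x hx => (⟨Sum.inr x, by simpa using hx⟩ : s)) ?_ ?_ ?_ ?_
      · rintro ⟨x | x, hx⟩ h
        · simp at h
        · simpa using hx
      · intro x hx; simp
      · rintro ⟨x | x, hx⟩ h
        · simp at h
        · simp
      · intro x hx; simp
    apply h
    rw [← c1, ← c2]
    apply le_antisymm
    · exact Finset.card_le_card_of_injOn π (fun x hx => by
        have := hl x (by simpa using hx)
        simpa using this) (π.injective.injOn)
    · exact Finset.card_le_card_of_injOn π (fun x hx => by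
        have := hr x (by simpa using hx)
        simpa using this) (π.injective.injOn)
  obtain ⟨x, hx⟩ := key
  have : ∏ i, ((fromBlocks 0 (-A) A 0 : Matrix (ι ⊕ ι) (ι ⊕ ι) R).submatrix (fun i : s => (i : ι ⊕ ι)) (fun i : s => (i : ι ⊕ ι))) (π i) i = 0 :=
    Finset.prod_eq_zero (mem_univ x) hx
  rw [this, smul_zero]

end Pair


section signs
variable {n : ℕ}

/-- the character attached to a finset -/
noncomputable def chi (σ : Finset (Fin n)) (ε : Fin n → ℤˣ) : ℝ := ∏ i ∈ σ, ((ε i : ℤ) : ℝ)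

theorem sgn_sq (u : ℤˣ) : ((u : ℤ) : ℝ) * ((u : ℤ) : ℝ) = 1 := by
  rcases Int.units_eq_one_or u with h | h <;> simp [h]

theorem chi_sq (σ : Finset (Fin n)) (ε : Fin n → ℤˣ) : chi σ ε * chi σ ε = 1 := by
  unfold chi
  rw [← Finset.prod_mul_distrib]
  exact Finset.prod_eq_one fun i _ => sgn_sq _

theorem chi_cases (σ : Finset (Fin n)) (ε : Fin n → ℤˣ) : chi σ ε = 1 ∨ chi σ ε = -1 :=
  mul_self_eq_one_iff.mp (chi_sq σ ε)

theorem chi_compl (σ : Finset (Fin n)) (ε : Fin n → ℤˣ) : chi σ ε * chi σᶜ ε = chi univ ε := by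
  unfold chi
  exact Finset.prod_mul_prod_compl σ _

theorem chi_univ_mul (σ : Finset (Fin n)) (ε : Fin n → ℤˣ) : chi univ ε * chi σ ε = chi σᶜ ε := by
  rw [← chi_compl σ ε]
  calc chi σ ε * chi σᶜ ε * chi σ ε = (chi σ ε * chi σ ε) * chi σᶜ ε := by ring
    _ = _ := by rw [chi_sq, one_mul]

theorem chi_orth (σ τ : Finset (Fin n)) :
    ∑ ε : Fin n → ℤˣ, chi σ ε * chi τ ε = if σ = τ then (2:ℝ) ^ n else 0 := by
  split_ifs with h
  · subst h
    simp only [chi_sq, sum_const, card_univ, Fintype.card_fun, Fintype.card_fin, Fintype.card_units_int]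
    simp
  · have hne : ∃ i, (i ∈ σ ∧ i ∉ τ) ∨ (i ∉ σ ∧ i ∈ τ) := by
      by_contra hcon
      push Not at hcon
      apply h
      ext i
      constructor
      · intro hi; exact (hcon i).1 hi
      · intro hi; by_contra h2; exact (hcon i).2 h2 hi
    obtain ⟨i, hi⟩ := hne
    have e1 : ∀ ε : Fin n → ℤˣ, chi σ ε * chi τ ε =
        ∏ j, ((if j ∈ σ then ((ε j : ℤ) : ℝ) else 1) * (if j ∈ τ then ((ε j : ℤ) : ℝ) else 1)) := by
      intro ε
      rw [Finset.prod_mul_distrib, Finset.prod_ite_mem, Finset.prod_ite_mem]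
      simp [chi]
    simp only [e1]
    have e2 := Finset.prod_univ_sum (fun _ : Fin n => (univ : Finset ℤˣ))
      (fun j u => (if j ∈ σ then ((u : ℤ) : ℝ) else 1) * (if j ∈ τ then ((u : ℤ) : ℝ) else 1))
    rw [Fintype.piFinset_univ] at e2
    rw [← e2]
    apply Finset.prod_eq_zero (mem_univ i)
    have : (univ : Finset ℤˣ) = {1, -1} := by decide
    rw [this]
    rcases hi with hi | hi
    · simp [hi.1, hi.2]
    · simp [hi.1, hi.2]

end signs


section key
variable {n : ℕ}

/-- `det (A + i)` over the complex numbers -/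
noncomputable def H (A : Matrix (Fin n) (Fin n) ℝ) : ℂ := (A.map Complex.ofRealHom + Complex.I • 1).det

theorem H_expand (A : Matrix (Fin n) (Fin n) ℝ) :
    H A = ∑ s : Finset (Fin n), ((pm A s : ℝ) : ℂ) * Complex.I ^ (sᶜ).card := by
  unfold H
  have : (Complex.I • (1 : Matrix (Fin n) (Fin n) ℂ)) = diagonal (fun _ => Complex.I) := by
    rw [smul_one_eq_diagonal]
  rw [this, det_add_diagonal]
  refine Finset.sum_congr rfl fun s _ => ?_
  rw [pm_map]
  simp

theorem normSq_H (A : Matrix (Fin n) (Fin n) ℝ) : Complex.normSq (H A) = (A * A + 1).det := by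
  have h1 : (starRingEnd ℂ) (H A) = (A.map Complex.ofRealHom - Complex.I • 1).det := by
    unfold H
    rw [RingHom.map_det]
    congr 1
    ext i j
    by_cases hij : i = j
    · subst hij; simp [sub_eq_add_neg]
    · simp [hij]
  have h2 : ((Complex.normSq (H A) : ℝ) : ℂ) = (((A * A + 1).det : ℝ) : ℂ) := by
    rw [← Complex.mul_conj, h1]
    have h3 : (((A * A + 1).det : ℝ) : ℂ) = ((A * A + 1).map Complex.ofRealHom).det := by
      rw [← RingHom.mapMatrix_apply, ← RingHom.map_det]; rfl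
    rw [h3]
    unfold H
    rw [← det_mul]
    congr 1
    have h4 : (A * A + 1).map Complex.ofRealHom = A.map Complex.ofRealHom * A.map Complex.ofRealHom + 1 := by
      rw [← RingHom.mapMatrix_apply, ← RingHom.mapMatrix_apply, map_add, map_mul, map_one]
    rw [h4, add_mul, mul_sub, mul_sub]
    have h5 : A.map Complex.ofRealHom * Complex.I • (1 : Matrix (Fin n) (Fin n) ℂ) = Complex.I • A.map Complex.ofRealHom := by
      rw [Matrix.mul_smul, Matrix.mul_one]
    have h6 : Complex.I • (1 : Matrix (Fin n) (Fin n) ℂ) * A.map Complex.ofRealHom = Complex.I • A.map Complex.ofRealHom := by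
      rw [Matrix.smul_mul, Matrix.one_mul]
    have h7 : Complex.I • (1 : Matrix (Fin n) (Fin n) ℂ) * Complex.I • (1 : Matrix (Fin n) (Fin n) ℂ) = -1 := by
      rw [Matrix.smul_mul, Matrix.one_mul, smul_smul, Complex.I_mul_I, neg_one_smul]
    rw [h5, h6, h7]
    abel
  exact_mod_cast h2

/-- the sign matrix applied to `A` -/
noncomputable def sg (A : Matrix (Fin n) (Fin n) ℝ) (ε : Fin n → ℤˣ) : Matrix (Fin n) (Fin n) ℝ :=
  diagonal (fun i => ((ε i : ℤ) : ℝ)) * A

theorem normSq_sg (A : Matrix (Fin n) (Fin n) ℝ) (ε : Fin n → ℤˣ) :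
    Complex.normSq (H (sg A ε)) = ∑ s : Finset (Fin n ⊕ Fin n), chi s.toLeft ε * chi s.toRight ε * N A s := by
  rw [normSq_H, det_one_add_sq]
  refine Finset.sum_congr rfl fun s _ => ?_
  change N (sg A ε) s = _
  unfold sg
  rw [N_scale]
  congr 1
  conv_lhs => rw [← Finset.toLeft_disjSum_toRight (u := s)]
  rw [Finset.prod_disjSum]
  simp [chi]

theorem H_ne_zero {A : Matrix (Fin n) (Fin n) ℝ} (hn : 0 < n) (hP : ∀ s, 0 < pm A s)
    (hN : ∀ s : Finset (Fin n ⊕ Fin n), s.toLeft ≠ s.toRightᶜ → 0 ≤ N A s) : H A ≠ 0 := by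
  intro h0
  -- the total sum vanishes
  have hg1 : ∑ s : Finset (Fin n ⊕ Fin n), N A s = 0 := by
    have := normSq_sg A (fun _ => 1)
    have e : sg A (fun _ => 1) = A := by
      unfold sg; simp
    rw [e, h0] at this
    simp [chi] at this
    exact this.symm
  set C : ℝ := ∑ ε : Fin n → ℤˣ, (1 + chi univ ε) with hC
  have hpos : ∀ ε : Fin n → ℤˣ, 0 ≤ 1 + chi univ ε := by
    intro ε
    rcases chi_cases univ ε with h | h <;> rw [h] <;> norm_num
  have hc : ∀ s : Finset (Fin n ⊕ Fin n),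
      (∑ ε : Fin n → ℤˣ, (1 + chi univ ε) * (chi s.toLeft ε * chi s.toRight ε)) * N A s ≤ C * N A s := by
    intro s
    by_cases hs : s.toLeft = s.toRightᶜ
    · apply le_of_eq
      congr 1
      refine Finset.sum_congr rfl fun ε _ => ?_
      rw [hs, mul_comm (chi s.toRightᶜ ε), chi_compl]
      have := chi_sq univ ε
      linear_combination this
    · refine mul_le_mul_of_nonneg_right ?_ (hN s hs)
      refine Finset.sum_le_sum fun ε _ => ?_
      have h1 : chi s.toLeft ε * chi s.toRight ε ≤ 1 := by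
        rcases chi_cases s.toLeft ε with h | h <;> rcases chi_cases s.toRight ε with h' | h' <;>
          rw [h, h'] <;> norm_num
      nlinarith [hpos ε]
  have hW : ∑ ε : Fin n → ℤˣ, (1 + chi univ ε) * Complex.normSq (H (sg A ε)) ≤ 0 := by
    calc ∑ ε : Fin n → ℤˣ, (1 + chi univ ε) * Complex.normSq (H (sg A ε))
        = ∑ s : Finset (Fin n ⊕ Fin n),
          (∑ ε : Fin n → ℤˣ, (1 + chi univ ε) * (chi s.toLeft ε * chi s.toRight ε)) * N A s := by
          simp only [normSq_sg, Finset.mul_sum, Finset.sum_mul]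
          rw [Finset.sum_comm]
          refine Finset.sum_congr rfl fun s _ => Finset.sum_congr rfl fun ε _ => by ring
      _ ≤ ∑ s : Finset (Fin n ⊕ Fin n), C * N A s := Finset.sum_le_sum fun s _ => hc s
      _ = 0 := by rw [← Finset.mul_sum, hg1, mul_zero]
  have hz : ∀ ε : Fin n → ℤˣ, (1 + chi univ ε) * Complex.normSq (H (sg A ε)) = 0 := by
    have h1 : ∀ ε ∈ (univ : Finset (Fin n → ℤˣ)), 0 ≤ (1 + chi univ ε) * Complex.normSq (H (sg A ε)) :=
      fun ε _ => mul_nonneg (hpos ε) (Complex.normSq_nonneg _)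
    have h2 := (Finset.sum_eq_zero_iff_of_nonneg h1).mp (le_antisymm hW (Finset.sum_nonneg h1))
    exact fun ε => h2 ε (mem_univ _)
  have hz' : ∀ ε : Fin n → ℤˣ, ((1 + chi univ ε : ℝ) : ℂ) * H (sg A ε) = 0 := by
    intro ε
    rcases mul_eq_zero.mp (hz ε) with h | h
    · rw [h]; simp
    · rw [Complex.normSq_eq_zero.mp h, mul_zero]
  -- pick a set of size n/2
  obtain ⟨τ, hτ⟩ : ∃ τ : Finset (Fin n), τ.card = n / 2 := by
    obtain ⟨τ, -, h⟩ := Finset.exists_subset_card_eq (s := (univ : Finset (Fin n))) (n := n / 2) (by simp; omega)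
    exact ⟨τ, h⟩
  have hτc : (τᶜ).card = n - n / 2 := by rw [card_compl, hτ, Fintype.card_fin]
  have hsum : ∑ ε : Fin n → ℤˣ, ((chi τ ε : ℝ) : ℂ) * (((1 + chi univ ε : ℝ) : ℂ) * H (sg A ε)) =
      (2:ℂ) ^ n * (((pm A τ : ℝ) : ℂ) * Complex.I ^ (τᶜ).card + ((pm A τᶜ : ℝ) : ℂ) * Complex.I ^ τ.card) := by
    have e1 : ∀ ε : Fin n → ℤˣ, ((chi τ ε : ℝ) : ℂ) * (((1 + chi univ ε : ℝ) : ℂ) * H (sg A ε)) =
        ∑ s : Finset (Fin n), (((chi s ε * chi τ ε + chi s ε * chi τᶜ ε : ℝ)) : ℂ) * (((pm A s : ℝ) : ℂ) * Complex.I ^ (sᶜ).card) := by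
      intro ε
      rw [H_expand, Finset.mul_sum, Finset.mul_sum]
      refine Finset.sum_congr rfl fun s _ => ?_
      unfold sg
      rw [pm_row_scale]
      change ((chi τ ε : ℝ) : ℂ) * (((1 + chi univ ε : ℝ) : ℂ) * (((chi s ε * pm A s : ℝ) : ℂ) * Complex.I ^ (sᶜ).card)) = _
      rw [← chi_univ_mul τ ε]
      push_cast
      ring
    simp only [e1]
    rw [Finset.sum_comm]
    have e2 : ∀ s : Finset (Fin n), ∑ ε : Fin n → ℤˣ, (((chi s ε * chi τ ε + chi s ε * chi τᶜ ε : ℝ)) : ℂ) * (((pm A s : ℝ) : ℂ) * Complex.I ^ (sᶜ).card)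
        = (((if s = τ then (2:ℝ) ^ n else 0) + (if s = τᶜ then (2:ℝ) ^ n else 0) : ℝ) : ℂ) * (((pm A s : ℝ) : ℂ) * Complex.I ^ (sᶜ).card) := by
      intro s
      rw [← Finset.sum_mul, ← chi_orth, ← chi_orth, ← Finset.sum_add_distrib]
      push_cast
      rfl
    simp only [e2]
    have e3 : ∀ s : Finset (Fin n), (((if s = τ then (2:ℝ) ^ n else 0) + (if s = τᶜ then (2:ℝ) ^ n else 0) : ℝ) : ℂ) * (((pm A s : ℝ) : ℂ) * Complex.I ^ (sᶜ).card)
        = (if s = τ then (2:ℂ) ^ n * (((pm A s : ℝ) : ℂ) * Complex.I ^ (sᶜ).card) else 0) +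
          (if s = τᶜ then (2:ℂ) ^ n * (((pm A s : ℝ) : ℂ) * Complex.I ^ (sᶜ).card) else 0) := by
      intro s
      split_ifs <;> push_cast <;> ring
    simp only [e3]
    rw [Finset.sum_add_distrib, Finset.sum_ite_eq' univ τ, Finset.sum_ite_eq' univ τᶜ]
    simp only [mem_univ, if_true, compl_compl]
    ring
  have hzero : (2:ℂ) ^ n * (((pm A τ : ℝ) : ℂ) * Complex.I ^ (τᶜ).card + ((pm A τᶜ : ℝ) : ℂ) * Complex.I ^ τ.card) = 0 := by
    rw [← hsum]
    exact Finset.sum_eq_zero fun ε _ => by rw [hz' ε, mul_zero]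
  have h3 : ((pm A τ : ℝ) : ℂ) * Complex.I ^ (τᶜ).card + ((pm A τᶜ : ℝ) : ℂ) * Complex.I ^ τ.card = 0 := by
    rcases mul_eq_zero.mp hzero with h | h
    · exact absurd h (pow_ne_zero _ two_ne_zero)
    · exact h
  rw [hτc, hτ] at h3
  have p1 := hP τ
  have p2 := hP τᶜ
  rcases Nat.even_or_odd' n with ⟨m, hm | hm⟩
  · have a1 : n / 2 = m := by omega
    have a2 : n - m = m := by omega
    rw [a1, a2] at h3
    have h4 : ((pm A τ + pm A τᶜ : ℝ) : ℂ) * Complex.I ^ m = 0 := by push_cast; linear_combination h3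
    rcases mul_eq_zero.mp h4 with h | h
    · have : pm A τ + pm A τᶜ = 0 := by exact_mod_cast h
      linarith
    · exact absurd h (pow_ne_zero _ Complex.I_ne_zero)
  · have a1 : n / 2 = m := by omega
    have a2 : n - m = m + 1 := by omega
    rw [a1, a2] at h3
    have h4 : (((pm A τ : ℝ) : ℂ) * Complex.I + ((pm A τᶜ : ℝ) : ℂ)) * Complex.I ^ m = 0 := by
      linear_combination h3
    rcases mul_eq_zero.mp h4 with h | h
    · have := congrArg Complex.re h
      simp at this
      linarith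
    · exact absurd h (pow_ne_zero _ Complex.I_ne_zero)

end key

section roots
open Polynomial


theorem near_root {P : ℂ[X]} (hP : P.Monic) (a : ℂ) {η : ℝ} (hη : 0 < η)
    (h : ‖P.eval a‖ < η ^ P.natDegree) : ∃ b, P.eval b = 0 ∧ ‖a - b‖ < η := by
  by_contra hcon
  push Not at hcon
  have hs : P.Splits := IsAlgClosed.splits P
  have h1 : η ^ P.natDegree ≤ ‖P.eval a‖ := by
    have h2 := Multiset.prod_map_le_prod_map₀ (s := P.roots) (fun _ => η) (fun b => ‖a - b‖)
      (by intros; positivity) (fun b hb => hcon b (by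
        have := (Polynomial.mem_roots hP.ne_zero).mp hb
        exact this))
    simp only [Multiset.map_const', Multiset.prod_replicate] at h2
    rw [← hs.natDegree_eq_card_roots] at h2
    refine h2.trans (le_of_eq ?_)
    rw [hs.eval_eq_prod_roots_of_monic hP]
    have := (P.roots.prod_hom' (NormedField.toMulRingNorm ℂ) (fun x : ℂ ↦ a - x))
    exact this
  linarith

theorem no_root {m : ℕ} {q P : ℂ[X]} (hq : q.Monic) (hqd : q.natDegree = m) (hP : P.Monic)
    (hPd : P.natDegree = m + 1)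
    (ha : ∀ z : ℂ, 0 ≤ z.re → q.eval z ≠ 0)
    (hb : ∀ t : ℝ, 0 < t → t ≤ 1 → ∀ z : ℂ, z.re = 0 → (1 - t) * (z * q.eval z) + t * P.eval z ≠ 0)
    (hc : 0 < (P.eval 0 / q.eval 0).re) :
    ∀ z : ℂ, 0 ≤ z.re → P.eval z ≠ 0 := by
  -- the family of polynomials
  let F : ℝ → ℂ[X] := fun t => C ((1 - t : ℝ) : ℂ) * (X * q) + C ((t : ℝ) : ℂ) * P
  have hFe : ∀ t z, (F t).eval z = (1 - t) * (z * q.eval z) + t * P.eval z := by
    intro t z; simp [F]
  have hXq : (X * q).Monic := monic_X.mul hq
  have hXqd : (X * q).natDegree = m + 1 := by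
    rw [natDegree_X_mul hq.ne_zero, hqd]
  have hFd : ∀ t, (F t).natDegree ≤ m + 1 := by
    intro t
    refine (natDegree_add_le _ _).trans (max_le ?_ ?_)
    · exact (natDegree_C_mul_le _ _).trans hXqd.le
    · exact (natDegree_C_mul_le _ _).trans hPd.le
  have hFc : ∀ t, (F t).coeff (m + 1) = 1 := by
    intro t
    have h1 : (X * q).coeff (m + 1) = 1 := by rw [← hXqd]; exact hXq.coeff_natDegree
    have h2 : P.coeff (m + 1) = 1 := by rw [← hPd]; exact hP.coeff_natDegree
    simp only [F, coeff_add, coeff_C_mul]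
    rw [h1, h2]
    push_cast; ring
  have hFm : ∀ t, (F t).Monic := fun t => monic_of_natDegree_le_of_coeff_eq_one (m + 1) (hFd t) (hFc t)
  have hFn : ∀ t, (F t).natDegree = m + 1 := fun t =>
    le_antisymm (hFd t) (le_natDegree_of_ne_zero (by rw [hFc t]; exact one_ne_zero))
  -- bound for the roots
  obtain ⟨R, hR⟩ : ∃ R : ℝ, ∀ t : ℝ, 0 ≤ t → t ≤ 1 → ∀ z, (F t).eval z = 0 → ‖z‖ ≤ R := by
    let B : NNReal := ∑ k ∈ Finset.range (m + 1), (‖(X * q).coeff k‖₊ + ‖P.coeff k‖₊)
    refine ⟨B + 1, ?_⟩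
    intro t ht0 ht1 z hz
    have h1 := IsRoot.norm_lt_cauchyBound (hFm t).ne_zero (a := z) hz
    have h2 : cauchyBound (F t) ≤ B + 1 := by
      unfold cauchyBound
      rw [(hFm t).leadingCoeff, nnnorm_one, div_one, hFn t]
      gcongr
      apply Finset.sup_le
      intro k hk
      have e1 : ‖((1 - t : ℝ) : ℂ)‖₊ ≤ 1 := by
        rw [← NNReal.coe_le_coe, coe_nnnorm, Complex.norm_real, Real.norm_eq_abs, abs_of_nonneg (by linarith)]
        simpa using ht0
      have e2 : ‖((t : ℝ) : ℂ)‖₊ ≤ 1 := by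
        rw [← NNReal.coe_le_coe, coe_nnnorm, Complex.norm_real, Real.norm_eq_abs, abs_of_nonneg (by linarith)]
        simpa using ht1
      have h4 : ‖(F t).coeff k‖₊ ≤ ‖(X * q).coeff k‖₊ + ‖P.coeff k‖₊ := by
        simp only [F, coeff_add, coeff_C_mul]
        refine (nnnorm_add_le _ _).trans (add_le_add ?_ ?_)
        · rw [nnnorm_mul]
          exact mul_le_of_le_one_left zero_le e1
        · rw [nnnorm_mul]
          exact mul_le_of_le_one_left zero_le e2
      refine h4.trans ?_
      exact Finset.single_le_sum (f := fun k => ‖(X * q).coeff k‖₊ + ‖P.coeff k‖₊) (fun k _ => zero_le) hk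
    have h2 : (cauchyBound (F t) : ℝ) ≤ B + 1 := by exact_mod_cast h2
    have h5 : ‖z‖ < (cauchyBound (F t) : ℝ) := by exact_mod_cast h1
    linarith
  have hq0 : q.eval 0 ≠ 0 := ha 0 (by simp)
  -- Step A: no roots for small t
  obtain ⟨δ, hδ0, hδ⟩ : ∃ δ : ℝ, 0 < δ ∧ ∀ t, 0 < t → t ≤ δ → ∀ z : ℂ, 0 ≤ z.re → (F t).eval z ≠ 0 := by
    -- near zero
    let hh : ℂ → ℂ := fun z => P.eval z - z * q.eval z
    have hcont : ContinuousAt (fun z => (hh z / q.eval z).re) 0 := by
      have hd : ContinuousAt (fun z => hh z / q.eval z) 0 :=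
        ContinuousAt.div (P.continuous.sub (continuous_id.mul q.continuous)).continuousAt
          q.continuous.continuousAt hq0
      exact Complex.continuous_re.continuousAt.comp hd
    have h0 : 0 < (hh 0 / q.eval 0).re := by simpa [hh] using hc
    have hev : ∀ᶠ z in nhds (0:ℂ), 0 < (hh z / q.eval z).re := hcont.eventually (lt_mem_nhds h0)
    obtain ⟨ρ, hρ0, hρ⟩ := Metric.eventually_nhds_iff.mp hev
    -- away from zero
    let K : Set ℂ := {z | 0 ≤ z.re ∧ ‖z‖ ≤ R ∧ ρ ≤ ‖z‖}
    have hKc : IsCompact K := by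
      apply Metric.isCompact_of_isClosed_isBounded
      · apply IsClosed.and (isClosed_le continuous_const Complex.continuous_re)
        exact IsClosed.and (isClosed_le continuous_norm continuous_const) (isClosed_le continuous_const continuous_norm)
      · apply (Metric.isBounded_closedBall (x := (0:ℂ)) (r := R)).subset
        intro z hz
        simpa using hz.2.1
    obtain ⟨c, hc0, hcK⟩ : ∃ c : ℝ, 0 < c ∧ ∀ z ∈ K, c ≤ ‖z * q.eval z‖ := by
      rcases K.eq_empty_or_nonempty with hK | hK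
      · exact ⟨1, one_pos, by rw [hK]; simp⟩
      · obtain ⟨z0, hz0, hmin⟩ := hKc.exists_isMinOn hK
          (f := fun z => ‖z * q.eval z‖) (by fun_prop)
        refine ⟨‖z0 * q.eval z0‖, ?_, fun z hz => hmin hz⟩
        rw [norm_pos_iff]
        refine mul_ne_zero ?_ (ha z0 hz0.1)
        intro h
        have := hz0.2.2
        rw [h, norm_zero] at this
        linarith
    obtain ⟨M, hM⟩ : ∃ M : ℝ, ∀ z ∈ K, ‖hh z‖ ≤ M := by
      obtain ⟨M, hM⟩ := hKc.exists_bound_of_continuousOn (f := hh) (by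
        apply Continuous.continuousOn
        exact P.continuous.sub (continuous_id.mul q.continuous))
      exact ⟨M, hM⟩
    refine ⟨min 1 (c / (2 * (|M| + 1))), lt_min one_pos (by positivity), ?_⟩
    intro t ht0 ht1 z hz hroot
    have htle : t ≤ 1 := ht1.trans (min_le_left _ _)
    have hbd := hR t ht0.le htle z hroot
    rw [hFe] at hroot
    have he : z * q.eval z + t * hh z = 0 := by
      simp only [hh]
      linear_combination hroot
    by_cases hzs : ‖z‖ < ρ
    · have hp : 0 < (hh z / q.eval z).re := hρ (by simpa using hzs)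
      have hqz := ha z hz
      have : z = -(t * (hh z / q.eval z)) := by
        field_simp
        linear_combination he
      have h2 := congrArg Complex.re this
      rw [Complex.neg_re, Complex.re_ofReal_mul] at h2
      have := mul_pos ht0 hp
      linarith
    · push Not at hzs
      have hzK : z ∈ K := ⟨hz, hbd, hzs⟩
      have h1 := hcK z hzK
      have h2 := hM z hzK
      have h3 : ‖z * q.eval z‖ = t * ‖hh z‖ := by
        have : z * q.eval z = -(t * hh z) := by linear_combination he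
        rw [this, norm_neg, norm_mul, Complex.norm_real, Real.norm_eq_abs, abs_of_pos ht0]
      have h4 : t ≤ c / (2 * (|M| + 1)) := ht1.trans (min_le_right _ _)
      have h5 : t * ‖hh z‖ ≤ c / (2 * (|M| + 1)) * (|M| + 1) := by
        apply mul_le_mul h4 _ (norm_nonneg _) (by positivity)
        linarith [le_abs_self M]
      have h6 : c / (2 * (|M| + 1)) * (|M| + 1) = c / 2 := by
        field_simp
      linarith
  -- main argument
  intro z1 hz1 hroot1
  let S : Set (ℝ × ℂ) := {p | δ ≤ p.1 ∧ p.1 ≤ 1 ∧ 0 ≤ p.2.re ∧ ‖p.2‖ ≤ R ∧ (F p.1).eval p.2 = 0}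
  have h1e : (F 1).eval z1 = 0 := by rw [hFe]; simp [hroot1]
  have hδ1 : δ < 1 := by
    by_contra hcon
    push Not at hcon
    exact hδ 1 one_pos hcon z1 hz1 h1e
  have hSne : S.Nonempty := ⟨(1, z1), hδ1.le, le_rfl, hz1, hR 1 zero_le_one le_rfl z1 h1e, h1e⟩
  have hSc : IsCompact S := by
    apply Metric.isCompact_of_isClosed_isBounded
    · refine IsClosed.and (isClosed_le continuous_const continuous_fst) ?_
      refine IsClosed.and (isClosed_le continuous_fst continuous_const) ?_
      refine IsClosed.and (isClosed_le continuous_const (Complex.continuous_re.comp continuous_snd)) ?_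
      refine IsClosed.and (isClosed_le (continuous_norm.comp continuous_snd) continuous_const) ?_
      have : Continuous (fun p : ℝ × ℂ => (F p.1).eval p.2) := by
        have : (fun p : ℝ × ℂ => (F p.1).eval p.2) =
          fun p : ℝ × ℂ => (1 - (p.1 : ℂ)) * (p.2 * q.eval p.2) + p.1 * P.eval p.2 := by
          funext p; rw [hFe]
        rw [this]
        have c1 : Continuous (fun p : ℝ × ℂ => q.eval p.2) := q.continuous.comp continuous_snd
        have c2 : Continuous (fun p : ℝ × ℂ => P.eval p.2) := P.continuous.comp continuous_snd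
        have c3 : Continuous (fun p : ℝ × ℂ => (p.1 : ℂ)) := Complex.continuous_ofReal.comp continuous_fst
        fun_prop
      exact isClosed_eq this continuous_const
    · apply ((Metric.isBounded_Icc δ 1).prod (Metric.isBounded_closedBall (x := (0:ℂ)) (r := R))).subset
      rintro ⟨t, z⟩ hp
      exact ⟨⟨hp.1, hp.2.1⟩, by simpa using hp.2.2.2.1⟩
  obtain ⟨⟨t0, z0⟩, ⟨ht0, ht0', hz0, hz0R, hz0r⟩, hmin⟩ := hSc.exists_isMinOn hSne (f := Prod.fst) continuous_fst.continuousOn
  simp only at ht0 ht0' hz0 hz0R hz0r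
  have hre : 0 < z0.re := by
    refine lt_of_le_of_ne hz0 (fun h => ?_)
    have := hb t0 (by linarith) ht0' z0 h.symm
    rw [← hFe] at this
    exact this hz0r
  -- t slightly smaller
  have hsmall : ∃ s : ℝ, 0 < s ∧ s < t0 ∧ ‖(F s).eval z0‖ < (z0.re) ^ (m + 1) := by
    have hcont : ContinuousAt (fun s : ℝ => ‖(F s).eval z0‖) t0 := by
      have : (fun s : ℝ => ‖(F s).eval z0‖) = fun s : ℝ => ‖(1 - (s:ℂ)) * (z0 * q.eval z0) + s * P.eval z0‖ := by
        funext s; rw [hFe]
      rw [this]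
      have c3 : Continuous (fun s : ℝ => (s : ℂ)) := Complex.continuous_ofReal
      apply Continuous.continuousAt
      fun_prop
    have h0 : ‖(F t0).eval z0‖ < (z0.re) ^ (m + 1) := by
      rw [hz0r, norm_zero]; positivity
    have hev : ∀ᶠ s in nhds t0, ‖(F s).eval z0‖ < (z0.re) ^ (m + 1) := hcont.eventually (gt_mem_nhds h0)
    obtain ⟨r, hr0, hr⟩ := Metric.eventually_nhds_iff.mp hev
    refine ⟨t0 - min (r / 2) (t0 / 2), ?_, ?_, ?_⟩
    · have := min_le_right (r / 2) (t0 / 2)
      linarith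
    · have : 0 < min (r / 2) (t0 / 2) := lt_min (by linarith) (by linarith)
      linarith
    · apply hr
      rw [Real.dist_eq]
      have h1 : 0 < min (r / 2) (t0 / 2) := lt_min (by linarith) (by linarith)
      have h2 := min_le_left (r / 2) (t0 / 2)
      rw [sub_sub_cancel_left, abs_neg, abs_of_pos h1]
      linarith
  obtain ⟨s, hs0, hst, hsr⟩ := hsmall
  obtain ⟨b, hb0, hbn⟩ := near_root (hFm s) z0 hre (by rw [hFn s]; exact hsr)
  have hbre : 0 ≤ b.re := by
    have h1 : |(z0 - b).re| ≤ ‖z0 - b‖ := Complex.abs_re_le_norm _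
    rw [Complex.sub_re] at h1
    have := le_abs_self (z0.re - b.re)
    linarith
  by_cases hsd : s ≤ δ
  · exact hδ s hs0 hsd b hbre hb0
  · push Not at hsd
    have hmem : (s, b) ∈ S := ⟨hsd.le, by linarith, hbre, hR s hs0.le (by linarith) b hb0, hb0⟩
    have := hmin hmem
    simp only [Set.mem_ofPred_eq] at this
    linarith

end roots

end Pool.Agent.Helper982.PairMinors
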